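import Pool.Agent.Work.MP_02d86d_gt.Est

/-! Definitions for the plane. -/

set_option autoImplicit false

namespace MP_02d86d_gt

open MeasureTheory Set Filter Topology Metric

/-- The complex coordinate of a point of the plane. -/
def zc (x : EuclideanSpace ℝ (Fin 2)) : ℂ := ⟨x 0, x 1⟩

/-- The unit vector with angle `θ`. -/
noncomputable def dir (θ : ℝ) : EuclideanSpace ℝ (Fin 2) := !₂[Real.cos θ, Real.sin θ]

/-- The complex moments. -/
noncomputable def lam (M : ℕ) (K : Set (EuclideanSpace ℝ (Fin 2))) : ℂ := ∫ x in K, zc x ^ M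

/-- The Fourier modes of the Fourier transform on the circle of radius `s`. -/
noncomputable def mode (s : ℝ) (m : ℤ) (K : Set (EuclideanSpace ℝ (Fin 2))) : ℂ :=
  ∫ φ in (-Real.pi)..Real.pi, Th K (s • dir φ) * Complex.exp (-(m * φ * Complex.I))

theorem norm_dir (θ : ℝ) : ‖dir θ‖ = 1 := by
  unfold dir
  rw [EuclideanSpace.norm_eq]
  simp [Real.cos_sq_add_sin_sq]

theorem norm_zc (x : EuclideanSpace ℝ (Fin 2)) : ‖zc x‖ = ‖x‖ := by
  rw [EuclideanSpace.norm_eq, Complex.norm_def, Complex.normSq_apply, Fin.sum_univ_two]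
  simp [zc, sq]

theorem continuous_zc : Continuous zc := by
  have h : zc = fun x : EuclideanSpace ℝ (Fin 2) => ((x 0 : ℝ) : ℂ) + ((x 1 : ℝ) : ℂ) * Complex.I := by
    funext x
    apply Complex.ext <;> simp [zc]
  rw [h]
  fun_prop

theorem zc_rho (θ : ℝ) (x : EuclideanSpace ℝ (Fin 2)) :
    zc (rho (dir θ) x) = -(Complex.exp (2 * θ * Complex.I) * (starRingEnd ℂ) (zc x)) := by
  rw [rho_apply (norm_dir θ)]
  have h1 : inner ℝ x (dir θ) = x 0 * Real.cos θ + x 1 * Real.sin θ := by
    simp [PiLp.inner_apply, dir, Fin.sum_univ_two, mul_comm]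
  have h2 : Complex.exp (2 * θ * Complex.I) = ⟨Real.cos θ ^ 2 - Real.sin θ ^ 2,
      2 * Real.sin θ * Real.cos θ⟩ := by
    have : (2 * θ * Complex.I : ℂ) = ((2 * θ : ℝ) : ℂ) * Complex.I := by push_cast; ring
    rw [this]
    apply Complex.ext
    · rw [Complex.exp_ofReal_mul_I_re, Real.cos_two_mul']
    · rw [Complex.exp_ofReal_mul_I_im, Real.sin_two_mul]
  rw [h1, h2]
  have hs := Real.sin_sq_add_cos_sq θ
  apply Complex.ext
  · simp [zc, dir]
    linear_combination (-(x 0)) * hs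
  · simp [zc, dir]
    linear_combination (-(x 1)) * hs

end MP_02d86d_gt
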