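import Pool.Agent.Work.MP_02d86d_gt.Comp
import Pool.Agent.Work.MP_02d86d_gt.Body
import Pool.Agent.Work.MP_02d86d_gt.Plane.Defs2

/-! Symmetry of Steiner symmetrals; bodies with a radial Fourier transform; summability of
squares of sines of multiples. -/

set_option autoImplicit false

namespace MP_02d86d_gt

open MeasureTheory Set Filter Topology Metric

variable {n : ℕ}

/-- A Steiner symmetral is symmetric. -/
theorem rho_st {u : EuclideanSpace ℝ (Fin n)} (hu : ‖u‖ = 1)
    (K : Set (EuclideanSpace ℝ (Fin n))) : rho u '' st u K = st u K := by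
  have h : ∀ x ∈ st u K, rho u x ∈ st u K := by
    intro x hx
    obtain ⟨t, y, rfl⟩ := exists_pt hu x
    rw [mem_st hu] at hx
    rw [rho_pt hu, mem_st hu, abs_neg]
    exact hx
  refine Subset.antisymm ?_ ?_
  · rintro _ ⟨x, hx, rfl⟩
    exact h x hx
  · intro x hx
    exact ⟨rho u x, h x hx, rho_rho u x⟩

/-- A convex body whose Fourier transform is radial is invariant under all isometries. -/
theorem image_of_radial {K : Set (EuclideanSpace ℝ (Fin n))} (hK : IsCompact K)
    (hc : Convex ℝ K) (hv : volume K ≠ 0)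
    (h : ∀ ξ η : EuclideanSpace ℝ (Fin n), ‖ξ‖ = ‖η‖ → Th K ξ = Th K η)
    (ψ : EuclideanSpace ℝ (Fin n) ≃ₗᵢ[ℝ] EuclideanSpace ℝ (Fin n)) : ψ '' K = K := by
  have hK' : IsCompact (ψ '' K) := hK.image ψ.continuous
  have hc' : Convex ℝ (ψ '' K) := hc.linear_image ψ.toLinearEquiv.toLinearMap
  have hv' : volume (ψ '' K) = volume K := by
    have h1 := ψ.measurePreserving.measure_preimage_emb ψ.toHomeomorph.measurableEmbedding (ψ '' K)
    rw [preimage_image_eq K ψ.injective] at h1
    exact h1.symm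
  refine eq_of_F hK' hK hc' hc (by rwa [hv']) hv ?_
  unfold F
  have : ∀ ξ, Th (ψ '' K) ξ = Th K ξ := by
    intro ξ
    have h1 := Th_image ψ K (ψ.symm ξ)
    rw [LinearIsometryEquiv.apply_symm_apply] at h1
    rw [h1]
    exact h _ _ (LinearIsometryEquiv.norm_map _ _)
  simp [this]

theorem abs_sin_nat_mul_le (k : ℕ) (x : ℝ) : |Real.sin (k * x)| ≤ k * |Real.sin x| := by
  induction k with
  | zero => simp
  | succ k ih =>
    push_cast
    rw [add_mul, one_mul, Real.sin_add]
    calc |Real.sin (k * x) * Real.cos x + Real.cos (k * x) * Real.sin x|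
        ≤ |Real.sin (k * x) * Real.cos x| + |Real.cos (k * x) * Real.sin x| := abs_add_le _ _
      _ ≤ |Real.sin (k * x)| * 1 + 1 * |Real.sin x| := by
          rw [abs_mul, abs_mul]
          gcongr
          · exact Real.abs_cos_le_one _
          · exact Real.abs_cos_le_one _
      _ ≤ (k + 1) * |Real.sin x| := by linarith

theorem sin_sq_nat_mul_le (k : ℕ) (x : ℝ) : Real.sin (k * x) ^ 2 ≤ k ^ 2 * Real.sin x ^ 2 := by
  have h := abs_sin_nat_mul_le k x
  have h2 := mul_self_le_mul_self (abs_nonneg _) h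
  rw [abs_mul_abs_self] at h2
  calc Real.sin (k * x) ^ 2 = Real.sin (k * x) * Real.sin (k * x) := sq _
    _ ≤ _ := h2
    _ = k ^ 2 * |Real.sin x| ^ 2 := by ring
    _ = k ^ 2 * Real.sin x ^ 2 := by rw [sq_abs]

theorem summable_sin_mul {m : ℝ} {x : ℕ → ℝ} (h : Summable fun i => Real.sin (m * x i) ^ 2)
    (k : ℕ) : Summable fun i => Real.sin (k * m * x i) ^ 2 := by
  refine Summable.of_nonneg_of_le (fun i => sq_nonneg _) (fun i => ?_) (h.mul_left ((k : ℝ) ^ 2))
  rw [mul_assoc]
  exact sin_sq_nat_mul_le k (m * x i)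

end MP_02d86d_gt
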