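import Pool.Agent.Work.MP_02d86d_gt.Plane.Defs2

/-! The Fourier modes of the Fourier transform on circles. -/

set_option autoImplicit false

namespace MP_02d86d_gt

open MeasureTheory Set Filter Topology Metric

/-- The Fourier transform of a mirror image. -/
theorem Th_rho {n : ℕ} {u : EuclideanSpace ℝ (Fin n)} (K : Set (EuclideanSpace ℝ (Fin n)))
    (ξ : EuclideanSpace ℝ (Fin n)) : Th (rho u '' K) ξ = Th K (rho u ξ) := by
  rw [Th_eq, Th_eq]
  have h1 := (rho u).measurePreserving
  rw [h1.setIntegral_image_emb (rho u).toMeasurableEquiv.measurableEmbedding]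
  refine integral_congr_ae (Eventually.of_forall fun x => ?_)
  have h2 : inner ℝ (rho u x) ξ = inner ℝ x (rho u ξ) := by
    rw [← (rho u).inner_map_map x (rho u ξ), rho_rho]
  simp only [h2]

theorem continuous_Th_modes {n : ℕ} {K : Set (EuclideanSpace ℝ (Fin n))} (hK : IsCompact K) :
    Continuous (Th K) := by
  have : IsFiniteMeasure (volume.restrict K) := ⟨by
    rw [Measure.restrict_apply_univ]
    exact hK.measure_lt_top⟩
  unfold Th
  exact continuous_charFun

theorem continuous_dir : Continuous dir := by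
  unfold dir
  fun_prop

theorem dir_periodic : Function.Periodic dir (2 * Real.pi) := by
  intro φ
  unfold dir
  rw [Real.cos_add_two_pi, Real.sin_add_two_pi]

theorem zc_inj {x y : EuclideanSpace ℝ (Fin 2)} (h : zc x = zc y) : x = y := by
  have h0 := congrArg Complex.re h
  have h1 := congrArg Complex.im h
  ext i
  fin_cases i
  · exact h0
  · exact h1

theorem zc_smul_dir (s φ : ℝ) : zc (s • dir φ) = s * Complex.exp (φ * Complex.I) := by
  apply Complex.ext
  · simp [zc, dir, Complex.exp_ofReal_mul_I_re]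
  · simp [zc, dir, Complex.exp_ofReal_mul_I_im]

theorem rho_dir (θ s φ : ℝ) :
    rho (dir θ) (s • dir φ) = s • dir (2 * θ + Real.pi - φ) := by
  apply zc_inj
  rw [zc_rho, zc_smul_dir, zc_smul_dir]
  rw [map_mul, Complex.conj_ofReal, ← Complex.exp_conj, map_mul, Complex.conj_ofReal,
    Complex.conj_I]
  have h : Complex.exp (((2 * θ + Real.pi - φ : ℝ) : ℂ) * Complex.I) =
      -(Complex.exp (2 * θ * Complex.I) * Complex.exp (φ * -Complex.I)) := by
    rw [← Complex.exp_add]
    have e : ((2 * θ + Real.pi - φ : ℝ) : ℂ) * Complex.I =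
      (2 * θ * Complex.I + φ * -Complex.I) + Real.pi * Complex.I := by push_cast; ring
    rw [e, Complex.exp_add, Complex.exp_pi_mul_I]
    ring
  rw [h]
  ring

/-- The modes of a mirror image. -/
theorem mode_rho (θ s : ℝ) (m : ℤ) (K : Set (EuclideanSpace ℝ (Fin 2))) :
    mode s m (rho (dir θ) '' K) =
      Complex.exp (-(m * (2 * θ + Real.pi) * Complex.I)) * mode s (-m) K := by
  unfold mode
  have h1 : ∀ φ : ℝ, Th (rho (dir θ) '' K) (s • dir φ) * Complex.exp (-(m * φ * Complex.I)) =
      (fun ψ : ℝ => Complex.exp (-(m * (2 * θ + Real.pi) * Complex.I)) *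
        (Th K (s • dir ψ) * Complex.exp (-(((-m : ℤ) : ℂ) * ψ * Complex.I))))
          (2 * θ + Real.pi - φ) := by
    intro φ
    simp only []
    rw [Th_rho, rho_dir, mul_left_comm, ← Complex.exp_add]
    congr 2
    push_cast
    ring
  have h3 := intervalIntegral.integral_comp_sub_left (a := -Real.pi) (b := Real.pi)
    (fun ψ : ℝ => Complex.exp (-(m * (2 * θ + Real.pi) * Complex.I)) *
        (Th K (s • dir ψ) * Complex.exp (-(((-m : ℤ) : ℂ) * ψ * Complex.I)))) (2 * θ + Real.pi)
  rw [intervalIntegral.integral_congr fun φ _ => h1 φ, h3, ← intervalIntegral.integral_const_mul]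
  have hper : Function.Periodic (fun ψ : ℝ => Complex.exp (-(m * (2 * θ + Real.pi) * Complex.I)) *
        (Th K (s • dir ψ) * Complex.exp (-(((-m : ℤ) : ℂ) * ψ * Complex.I)))) (2 * Real.pi) := by
    intro ψ
    simp only []
    rw [dir_periodic ψ]
    congr 2
    rw [Complex.exp_eq_exp_iff_exists_int]
    refine ⟨m, ?_⟩
    push_cast
    ring
  have h2 := hper.intervalIntegral_add_eq (2 * θ + Real.pi - Real.pi) (-Real.pi)
  have e1 : 2 * θ + Real.pi - Real.pi + 2 * Real.pi = 2 * θ + Real.pi - -Real.pi := by ring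
  have e2 : -Real.pi + 2 * Real.pi = Real.pi := by ring
  rw [e1, e2] at h2
  exact h2

theorem mode_step {θ θ' : ℝ} {K : Set (EuclideanSpace ℝ (Fin 2))}
    (hsym : rho (dir θ) '' K = K) (hch : Chords (dir θ') K) (hK : IsCompact K)
    (hS : IsCompact (st (dir θ') K)) (s : ℝ) (m : ℤ) :
    ‖mode s m (st (dir θ') K)‖ ≤ |Real.cos (m * (θ' - θ))| * ‖mode s m K‖ +
      Real.pi * s ^ 2 * Dlt (dir θ') K := by
  have hR : IsCompact (rho (dir θ') '' K) := hK.image (rho (dir θ')).continuous
  have hsd : Continuous fun φ : ℝ => s • dir φ := continuous_dir.const_smul s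
  have hexp : Continuous fun φ : ℝ => Complex.exp (-((m : ℂ) * φ * Complex.I)) := by fun_prop
  have hi : ∀ {L : Set (EuclideanSpace ℝ (Fin 2))}, IsCompact L →
      IntervalIntegrable (fun φ : ℝ => Th L (s • dir φ) * Complex.exp (-((m : ℂ) * φ * Complex.I)))
        volume (-Real.pi) Real.pi := fun hL =>
    (((continuous_Th_modes hL).comp hsd).mul hexp).intervalIntegrable _ _
  -- the average
  have h1 : (mode s m K + mode s m (rho (dir θ') '' K)) / 2 =
      Complex.exp (-(m * (θ' - θ) * Complex.I)) * Complex.cos (m * (θ' - θ)) * mode s m K := by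
    have e1 : mode s m K = Complex.exp (-(m * (2 * θ + Real.pi) * Complex.I)) * mode s (-m) K := by
      conv_lhs => rw [← hsym]
      exact mode_rho θ s m K
    rw [mode_rho, Complex.cos, e1]
    have e2 : Complex.exp (-(m * (θ' - θ) * Complex.I)) *
        ((Complex.exp (m * (θ' - θ) * Complex.I) + Complex.exp (-(m * (θ' - θ)) * Complex.I)) / 2) =
        (1 + Complex.exp (-(m * (2 * (θ' - θ)) * Complex.I))) / 2 := by
      rw [mul_div_assoc', mul_add, ← Complex.exp_add, ← Complex.exp_add]
      congr 2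
      · rw [neg_add_cancel, Complex.exp_zero]
      · congr 1
        ring
    rw [e2]
    have e3 : Complex.exp (-(m * (2 * θ' + Real.pi) * Complex.I)) =
        Complex.exp (-(m * (2 * (θ' - θ)) * Complex.I)) *
          Complex.exp (-(m * (2 * θ + Real.pi) * Complex.I)) := by
      rw [← Complex.exp_add]
      congr 1
      ring
    rw [e3]
    ring
  have h2 : ‖(mode s m K + mode s m (rho (dir θ') '' K)) / 2‖ =
      |Real.cos (m * (θ' - θ))| * ‖mode s m K‖ := by
    rw [h1, norm_mul, norm_mul]
    have e1 : ‖Complex.exp (-(m * (θ' - θ) * Complex.I))‖ = 1 := by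
      have : (-(m * (θ' - θ) * Complex.I) : ℂ) = ((-(m * (θ' - θ)) : ℝ) : ℂ) * Complex.I := by
        push_cast; ring
      rw [this, Complex.norm_exp_ofReal_mul_I]
    have e2 : ‖Complex.cos (m * (θ' - θ))‖ = |Real.cos (m * (θ' - θ))| := by
      have : (m * (θ' - θ) : ℂ) = ((m * (θ' - θ) : ℝ) : ℂ) := by push_cast; ring
      rw [this, ← Complex.ofReal_cos, Complex.norm_real, Real.norm_eq_abs]
    rw [e1, e2, one_mul]
  have h3 : mode s m (st (dir θ') K) - (mode s m K + mode s m (rho (dir θ') '' K)) / 2 =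
      ∫ φ in (-Real.pi)..Real.pi, (Th (st (dir θ') K) (s • dir φ) -
        (Th K (s • dir φ) + Th (rho (dir θ') '' K) (s • dir φ)) / 2) *
          Complex.exp (-((m : ℂ) * φ * Complex.I)) := by
    unfold mode
    rw [← intervalIntegral.integral_add (hi hK) (hi hR), ← intervalIntegral.integral_div,
      ← intervalIntegral.integral_sub (hi hS) (((hi hK).add (hi hR)).div_const 2)]
    refine intervalIntegral.integral_congr fun φ _ => ?_
    ring
  have h4 : ‖mode s m (st (dir θ') K) - (mode s m K + mode s m (rho (dir θ') '' K)) / 2‖ ≤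
      Real.pi * s ^ 2 * Dlt (dir θ') K := by
    rw [h3]
    have h5 := intervalIntegral.norm_integral_le_of_norm_le_const (a := -Real.pi) (b := Real.pi)
      (f := fun φ : ℝ => (Th (st (dir θ') K) (s • dir φ) -
        (Th K (s • dir φ) + Th (rho (dir θ') '' K) (s • dir φ)) / 2) *
          Complex.exp (-((m : ℂ) * φ * Complex.I))) (C := s ^ 2 / 2 * Dlt (dir θ') K) (by
      intro φ _
      rw [norm_mul]
      have e1 : ‖Complex.exp (-((m : ℂ) * φ * Complex.I))‖ = 1 := by
        have : (-(m * φ * Complex.I) : ℂ) = ((-(m * φ) : ℝ) : ℂ) * Complex.I := by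
          push_cast; ring
        rw [this, Complex.norm_exp_ofReal_mul_I]
      rw [e1, mul_one]
      have e2 := est2 (norm_dir θ') hch hK hS (s • dir φ)
      rwa [norm_smul, norm_dir, mul_one, Real.norm_eq_abs, sq_abs] at e2)
    refine h5.trans (le_of_eq ?_)
    rw [abs_of_pos (by linarith [Real.pi_pos])]
    ring
  calc ‖mode s m (st (dir θ') K)‖ = ‖(mode s m K + mode s m (rho (dir θ') '' K)) / 2 +
        (mode s m (st (dir θ') K) - (mode s m K + mode s m (rho (dir θ') '' K)) / 2)‖ := by
          congr 1; ring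
    _ ≤ _ := norm_add_le _ _
    _ ≤ _ := by rw [h2]; linarith

theorem exists_dir (ξ : EuclideanSpace ℝ (Fin 2)) : ∃ φ : ℝ, ξ = ‖ξ‖ • dir φ := by
  refine ⟨Complex.arg (zc ξ), ?_⟩
  apply zc_inj
  rw [zc_smul_dir, ← norm_zc]
  exact (Complex.norm_mul_exp_arg_mul_I _).symm

theorem Th_radial {K : Set (EuclideanSpace ℝ (Fin 2))} (hK : IsCompact K)
    (h : ∀ (s : ℝ) (m : ℤ), m ≠ 0 → mode s m K = 0) {ξ η : EuclideanSpace ℝ (Fin 2)}
    (hn : ‖ξ‖ = ‖η‖) : Th K ξ = Th K η := by
  obtain ⟨φ, hφ⟩ := exists_dir ξ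
  obtain ⟨ψ, hψ⟩ := exists_dir η
  set s := ‖ξ‖ with hs
  have hT : Fact (0 < 2 * Real.pi) := ⟨by positivity⟩
  have hper : Function.Periodic (fun φ : ℝ => Th K (s • dir φ)) (2 * Real.pi) := by
    intro φ
    simp only []
    rw [dir_periodic φ]
  have hcont : Continuous fun φ : ℝ => Th K (s • dir φ) :=
    (continuous_Th_modes hK).comp (continuous_dir.const_smul s)
  let G : C(AddCircle (2 * Real.pi), ℂ) := ⟨hper.lift, continuous_coinduced_dom.mpr hcont⟩
  have hG : ∀ x : ℝ, G (x : AddCircle (2 * Real.pi)) = Th K (s • dir x) := fun x => rfl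
  have hc : ∀ m : ℤ, m ≠ 0 → fourierCoeff G m = 0 := by
    intro m hm
    rw [fourierCoeff_eq_intervalIntegral G m (-Real.pi)]
    have e2 : -Real.pi + 2 * Real.pi = Real.pi := by ring
    rw [e2]
    have e3 : ∫ x in (-Real.pi)..Real.pi, fourier (-m) (x : AddCircle (2 * Real.pi)) •
        G (x : AddCircle (2 * Real.pi)) = mode s m K := by
      unfold mode
      refine intervalIntegral.integral_congr fun x _ => ?_
      rw [hG, fourier_coe_apply, smul_eq_mul, mul_comm]
      congr 2
      push_cast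
      have : (Real.pi : ℂ) ≠ 0 := by exact_mod_cast Real.pi_ne_zero
      field_simp
    rw [e3, h s m hm, smul_zero]
  have hsum : Summable (fourierCoeff G) := summable_of_ne_finset_zero (s := {0}) (fun m hm => hc m (by
    simpa using hm))
  have hval : ∀ x : AddCircle (2 * Real.pi), G x = fourierCoeff G 0 := by
    intro x
    have h1 := has_pointwise_sum_fourier_series_of_summable hsum x
    have h2 : HasSum (fun i : ℤ => fourierCoeff G i • fourier i x) (fourierCoeff G 0) := by
      have h3 := hasSum_single (f := fun i : ℤ => fourierCoeff G i • fourier i x) 0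
        (fun m hm => by simp only [hc m hm, zero_smul])
      simpa using h3
    exact h1.unique h2
  have h1 : Th K ξ = fourierCoeff G 0 := by
    rw [hφ, ← hG φ, hval]
  have h2 : Th K η = fourierCoeff G 0 := by
    rw [hψ, ← hn, ← hG ψ, hval]
  rw [h1, h2]

end MP_02d86d_gt
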