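import Pool.Agent.Work.MP_02d86d_gt.Plane.Isom

/-! Convex bodies close to the disc with one prescribed moment. -/

set_option autoImplicit false

namespace MP_02d86d_gt

open MeasureTheory Set Filter Topology Metric

/-- The convexity defect of the power function on the disc of radius `2`. -/
theorem bump_pow (M : ℕ) : ∃ C D : ℝ, 0 ≤ C ∧ 0 ≤ D ∧ (∀ z w : ℂ, ‖z‖ ≤ 2 → ‖w‖ ≤ 2 →
    ‖z ^ M - w ^ M‖ ≤ D * ‖z - w‖) ∧ ∀ z w : ℂ, ‖z‖ ≤ 2 → ‖w‖ ≤ 2 → ∀ a b : ℝ, 0 ≤ a → 0 ≤ b →
    a + b = 1 → ‖a * z ^ M + b * w ^ M - (a * z + b * w) ^ M‖ ≤ C * (a * b * ‖z - w‖ ^ 2) := by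
  induction M with
  | zero =>
    refine ⟨0, 0, le_rfl, le_rfl, ?_, ?_⟩
    · intro z w _ _; simp
    · intro z w _ _ a b _ _ h
      have : (a : ℂ) + b = 1 := by exact_mod_cast h
      simp [this]
  | succ M ih =>
    obtain ⟨C, D, hC, hD, h1, h2⟩ := ih
    refine ⟨2 * C + D, 2 * D + 2 ^ M, by positivity, by positivity, ?_, ?_⟩
    · intro z w hz hw
      have e : z ^ (M + 1) - w ^ (M + 1) = z * (z ^ M - w ^ M) + (z - w) * w ^ M := by ring
      rw [e]
      calc ‖z * (z ^ M - w ^ M) + (z - w) * w ^ M‖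
          ≤ ‖z * (z ^ M - w ^ M)‖ + ‖(z - w) * w ^ M‖ := norm_add_le _ _
        _ = ‖z‖ * ‖z ^ M - w ^ M‖ + ‖z - w‖ * ‖w‖ ^ M := by
            rw [norm_mul, norm_mul, norm_pow]
        _ ≤ 2 * (D * ‖z - w‖) + ‖z - w‖ * 2 ^ M := by
            gcongr
            exact h1 z w hz hw
        _ = _ := by ring
    · intro z w hz hw a b ha hb hab
      have hab' : (a : ℂ) = 1 - b := by
        rw [eq_sub_iff_add_eq]; exact_mod_cast hab
      have e : a * z ^ (M + 1) + b * w ^ (M + 1) - (a * z + b * w) ^ (M + 1) =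
          (a * z + b * w) * (a * z ^ M + b * w ^ M - (a * z + b * w) ^ M) +
          (a * b : ℂ) * ((z - w) * (z ^ M - w ^ M)) := by
        rw [pow_succ, pow_succ, pow_succ, hab']; ring
      have hm : ‖(a : ℂ) * z + b * w‖ ≤ 2 := by
        calc ‖(a : ℂ) * z + b * w‖ ≤ ‖(a : ℂ) * z‖ + ‖(b : ℂ) * w‖ := norm_add_le _ _
          _ = a * ‖z‖ + b * ‖w‖ := by
            rw [norm_mul, norm_mul, Complex.norm_real, Complex.norm_real,
              Real.norm_of_nonneg ha, Real.norm_of_nonneg hb]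
          _ ≤ a * 2 + b * 2 := by gcongr
          _ = 2 := by rw [← add_mul, hab]; norm_num
      rw [e]
      calc ‖(a * z + b * w) * (a * z ^ M + b * w ^ M - (a * z + b * w) ^ M) +
          (a * b : ℂ) * ((z - w) * (z ^ M - w ^ M))‖
          ≤ ‖(a * z + b * w) * (a * z ^ M + b * w ^ M - (a * z + b * w) ^ M)‖ +
            ‖(a * b : ℂ) * ((z - w) * (z ^ M - w ^ M))‖ := norm_add_le _ _
        _ = ‖(a : ℂ) * z + b * w‖ * ‖a * z ^ M + b * w ^ M - (a * z + b * w) ^ M‖ +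
            a * b * (‖z - w‖ * ‖z ^ M - w ^ M‖) := by
            rw [norm_mul, norm_mul, norm_mul, norm_mul, Complex.norm_real, Complex.norm_real,
              Real.norm_of_nonneg ha, Real.norm_of_nonneg hb]
        _ ≤ 2 * (C * (a * b * ‖z - w‖ ^ 2)) + a * b * (‖z - w‖ * (D * ‖z - w‖)) := by
            gcongr
            · exact h2 z w hz hw a b ha hb hab
            · exact h1 z w hz hw
        _ = _ := by ring

theorem bump_zc_comb (x y : EuclideanSpace ℝ (Fin 2)) (a b : ℝ) :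
    zc (a • x + b • y) = a * zc x + b * zc y := by
  apply Complex.ext <;> simp [zc]

theorem bump_norm_comb (x y : EuclideanSpace ℝ (Fin 2)) {a b : ℝ} (hab : a + b = 1) :
    ‖a • x + b • y‖ ^ 2 = a * ‖x‖ ^ 2 + b * ‖y‖ ^ 2 - a * b * ‖x - y‖ ^ 2 := by
  rw [norm_add_sq_real, norm_sub_sq_real, norm_smul, norm_smul, inner_smul_left, inner_smul_right,
    mul_pow, mul_pow, Real.norm_eq_abs, Real.norm_eq_abs, sq_abs, sq_abs]
  have hb : b = 1 - a := by linarith
  subst hb
  simp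
  ring

/-- The defining function. -/
noncomputable def bf (M : ℕ) (w : ℂ) (ε : ℝ) (x : EuclideanSpace ℝ (Fin 2)) : ℝ :=
  ‖x‖ ^ 2 - ε * (w * zc x ^ M).re - 1

/-- The body. -/
def bK (M : ℕ) (w : ℂ) (ε : ℝ) : Set (EuclideanSpace ℝ (Fin 2)) :=
  {x | ‖x‖ ≤ 2 ∧ bf M w ε x ≤ 0}

theorem continuous_bf (M : ℕ) (w : ℂ) (ε : ℝ) : Continuous (bf M w ε) := by
  have hc := continuous_zc
  unfold bf
  fun_prop

theorem isCompact_bK (M : ℕ) (w : ℂ) (ε : ℝ) : IsCompact (bK M w ε) := by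
  have h : bK M w ε = closedBall 0 2 ∩ {x | bf M w ε x ≤ 0} := by
    ext x
    simp [bK]
  rw [h]
  exact (isCompact_closedBall _ _).inter_right (isClosed_le (continuous_bf M w ε) continuous_const)

theorem bK_subset (M : ℕ) (w : ℂ) (ε : ℝ) : bK M w ε ⊆ closedBall 0 2 := by
  intro x hx
  simpa using hx.1

/-- Convexity. -/
theorem convex_bK {M : ℕ} {w : ℂ} (hw : ‖w‖ = 1) {ε C : ℝ} (hε : 0 ≤ ε) (hC : ε * C ≤ 1)
    (h : ∀ z w : ℂ, ‖z‖ ≤ 2 → ‖w‖ ≤ 2 → ∀ a b : ℝ, 0 ≤ a → 0 ≤ b →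
    a + b = 1 → ‖a * z ^ M + b * w ^ M - (a * z + b * w) ^ M‖ ≤ C * (a * b * ‖z - w‖ ^ 2)) :
    Convex ℝ (bK M w ε) := by
  intro x hx y hy a b ha hb hab
  refine ⟨?_, ?_⟩
  · calc ‖a • x + b • y‖ ≤ ‖a • x‖ + ‖b • y‖ := norm_add_le _ _
      _ = a * ‖x‖ + b * ‖y‖ := by
        rw [norm_smul, norm_smul, Real.norm_of_nonneg ha, Real.norm_of_nonneg hb]
      _ ≤ a * 2 + b * 2 := by gcongr; exacts [hx.1, hy.1]
      _ = 2 := by rw [← add_mul, hab]; norm_num
  · have h1 := hx.2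
    have h2 := hy.2
    have h3 := h (zc x) (zc y) (by rw [norm_zc]; exact hx.1) (by rw [norm_zc]; exact hy.1) a b
      ha hb hab
    have h4 : ‖zc x - zc y‖ = ‖x - y‖ := by
      have e : zc (x - y) = zc x - zc y := by
        apply Complex.ext <;> simp [zc]
      rw [← norm_zc (x - y), e]
    rw [h4] at h3
    have h5 : (w * (a * zc x ^ M + b * zc y ^ M - (a * zc x + b * zc y) ^ M)).re ≤
        C * (a * b * ‖x - y‖ ^ 2) := by
      refine (Complex.re_le_norm _).trans ?_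
      rw [norm_mul, hw, one_mul]
      exact h3
    have h6 : (w * (a * zc x ^ M + b * zc y ^ M - (a * zc x + b * zc y) ^ M)).re =
        a * (w * zc x ^ M).re + b * (w * zc y ^ M).re - (w * (a * zc x + b * zc y) ^ M).re := by
      have : w * (a * zc x ^ M + b * zc y ^ M - (a * zc x + b * zc y) ^ M) =
        a * (w * zc x ^ M) + b * (w * zc y ^ M) - w * (a * zc x + b * zc y) ^ M := by ring
      rw [this, Complex.sub_re, Complex.add_re, Complex.re_ofReal_mul, Complex.re_ofReal_mul]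
    rw [h6] at h5
    unfold bf at h1 h2 ⊢
    rw [bump_norm_comb x y hab, bump_zc_comb]
    have h7 : 0 ≤ a * b * ‖x - y‖ ^ 2 := by positivity
    have h8 : ε * (C * (a * b * ‖x - y‖ ^ 2)) ≤ a * b * ‖x - y‖ ^ 2 := by
      calc _ = (ε * C) * (a * b * ‖x - y‖ ^ 2) := by ring
        _ ≤ 1 * (a * b * ‖x - y‖ ^ 2) := by gcongr
        _ = _ := one_mul _
    have h9 := mul_le_mul_of_nonneg_left h5 hε
    have h10 := mul_le_mul_of_nonneg_left h1 ha
    have h11 := mul_le_mul_of_nonneg_left h2 hb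
    nlinarith

/-- The origin is an interior point. -/
theorem interior_bK {M : ℕ} (hM : M ≠ 0) (w : ℂ) (ε : ℝ) : (interior (bK M w ε)).Nonempty := by
  refine ⟨0, ?_⟩
  rw [mem_interior]
  refine ⟨ball 0 2 ∩ {x | bf M w ε x < 0}, ?_, ?_, ?_⟩
  · rintro x ⟨h1, h2⟩
    refine ⟨?_, le_of_lt h2⟩
    rw [mem_ball_zero_iff] at h1
    exact h1.le
  · exact isOpen_ball.inter (isOpen_lt (continuous_bf M w ε) continuous_const)
  · refine ⟨by simp, ?_⟩
    have : zc (0 : EuclideanSpace ℝ (Fin 2)) = 0 := by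
      apply Complex.ext <;> simp [zc]
    simp [bf, this, hM]

/-- The body is symmetric. -/
theorem rho_bK {M : ℕ} {w : ℂ} {θ : ℝ} (ε : ℝ)
    (h : (starRingEnd ℂ) w * ((-1) ^ M * Complex.exp (-(2 * θ * Complex.I)) ^ M) = w)
    (x : EuclideanSpace ℝ (Fin 2)) :
    bf M w ε (rho (dir θ) x) = bf M w ε x := by
  unfold bf
  rw [LinearIsometryEquiv.norm_map, zc_rho]
  congr 3
  have e : (w * (-(Complex.exp (2 * θ * Complex.I) * (starRingEnd ℂ) (zc x))) ^ M) =
      (starRingEnd ℂ) (w * zc x ^ M) := by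
    nth_rewrite 2 [← h]
    simp only [map_mul, map_pow, Complex.conj_conj, map_neg, map_one, ← Complex.exp_conj]
    have e2 : (-((starRingEnd ℂ) 2 * (starRingEnd ℂ) (θ : ℂ) * (starRingEnd ℂ) Complex.I)) =
      2 * θ * Complex.I := by
      rw [Complex.conj_I, Complex.conj_ofReal, Complex.conj_ofNat]; ring
    rw [e2, neg_pow, mul_pow]
    ring
  rw [e, Complex.conj_re]

/-- The rotation by the angle `2 φ`. -/
noncomputable def brot (φ : ℝ) : EuclideanSpace ℝ (Fin 2) ≃ₗᵢ[ℝ] EuclideanSpace ℝ (Fin 2) :=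
  (rho (dir 0)).trans (rho (dir φ))

theorem zc_brot (φ : ℝ) (x : EuclideanSpace ℝ (Fin 2)) :
    zc (brot φ x) = Complex.exp (2 * φ * Complex.I) * zc x := by
  unfold brot
  rw [LinearIsometryEquiv.trans_apply, zc_rho, zc_rho]
  simp

theorem lam_brot {K : Set (EuclideanSpace ℝ (Fin 2))} {φ : ℝ}
    (hK : brot φ '' K = K) (k : ℕ) (h : Complex.exp (2 * φ * Complex.I) ^ k ≠ 1) :
    lam k K = 0 := by
  have h1 : lam k K = Complex.exp (2 * φ * Complex.I) ^ k * lam k K := by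
    conv_lhs => rw [← hK]
    unfold lam
    rw [integral_isom, ← integral_const_mul]
    congr 1
    funext x
    rw [zc_brot, mul_pow]
  have h2 : (Complex.exp (2 * φ * Complex.I) ^ k - 1) * lam k K = 0 := by
    linear_combination -h1
  rcases mul_eq_zero.1 h2 with h3 | h3
  · exact absurd (sub_eq_zero.1 h3) h
  · exact h3

theorem lam_ball {M : ℕ} (hM : M ≠ 0) (r : ℝ) :
    lam M (closedBall (0 : EuclideanSpace ℝ (Fin 2)) r) = 0 := by
  refine lam_brot (φ := Real.pi / (2 * M)) ?_ M ?_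
  · rw [LinearIsometryEquiv.image_closedBall, map_zero]
  · rw [← Complex.exp_nat_mul]
    have e : ((M : ℕ) : ℂ) * (2 * ((Real.pi / (2 * M) : ℝ) : ℂ) * Complex.I) =
        Real.pi * Complex.I := by
      have : (M : ℂ) ≠ 0 := by exact_mod_cast hM
      push_cast
      field_simp
    rw [e, Complex.exp_pi_mul_I]
    norm_num

theorem image_bK {M : ℕ} {w : ℂ} {ε : ℝ}
    (ψ : EuclideanSpace ℝ (Fin 2) ≃ₗᵢ[ℝ] EuclideanSpace ℝ (Fin 2))
    (h : ∀ x, bf M w ε (ψ x) = bf M w ε x) : ψ '' bK M w ε = bK M w ε := by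
  have h1 : ∀ x, ψ x ∈ bK M w ε ↔ x ∈ bK M w ε := by
    intro x
    unfold bK
    rw [mem_ofPred_eq, mem_ofPred_eq, h, LinearIsometryEquiv.norm_map]
  ext x
  constructor
  · rintro ⟨y, hy, rfl⟩
    exact (h1 y).2 hy
  · intro hx
    refine ⟨ψ.symm x, ?_, ψ.apply_symm_apply x⟩
    rw [← h1, ψ.apply_symm_apply]
    exact hx

theorem integral_bre (M : ℕ) (w : ℂ) {K : Set (EuclideanSpace ℝ (Fin 2))} (hK : IsCompact K) :
    ∫ x in K, (w * zc x ^ M).re = (w * lam M K).re := by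
  have hc := continuous_zc
  have hi : IntegrableOn (fun x => w * zc x ^ M) K :=
    (by fun_prop : Continuous fun x => w * zc x ^ M).continuousOn.integrableOn_compact hK
  have h := Complex.reCLM.integral_comp_comm hi
  simp only [Complex.reCLM_apply] at h
  rw [h, integral_const_mul]
  rfl

theorem integral_bf (M : ℕ) (w : ℂ) (ε : ℝ) {K : Set (EuclideanSpace ℝ (Fin 2))}
    (hK : IsCompact K) :
    ∫ x in K, bf M w ε x = inertia K - ε * (w * lam M K).re - volume.real K := by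
  have hc := continuous_zc
  have h1 : IntegrableOn (fun x : EuclideanSpace ℝ (Fin 2) => ‖x‖ ^ 2) K :=
    (by fun_prop : Continuous fun x : EuclideanSpace ℝ (Fin 2) =>
      ‖x‖ ^ 2).continuousOn.integrableOn_compact hK
  have h2 : IntegrableOn (fun x : EuclideanSpace ℝ (Fin 2) => ε * (w * zc x ^ M).re) K :=
    (by fun_prop : Continuous fun x : EuclideanSpace ℝ (Fin 2) =>
      ε * (w * zc x ^ M).re).continuousOn.integrableOn_compact hK
  have h3 : IntegrableOn (fun _ : EuclideanSpace ℝ (Fin 2) => (1 : ℝ)) K :=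
    integrableOn_const hK.measure_lt_top.ne
  unfold bf
  have e1 : ∫ x in K, (‖x‖ ^ 2 - ε * (w * zc x ^ M).re - 1) =
      (∫ x in K, (‖x‖ ^ 2 - ε * (w * zc x ^ M).re)) - ∫ _ in K, (1 : ℝ) :=
    integral_sub (h1.sub h2) h3
  have e2 : ∫ x in K, (‖x‖ ^ 2 - ε * (w * zc x ^ M).re) =
      (∫ x in K, ‖x‖ ^ 2) - ∫ x in K, ε * (w * zc x ^ M).re := integral_sub h1 h2
  rw [e1, e2, integral_const_mul, integral_bre M w hK, setIntegral_const]
  simp [inertia]

/-- The radius of the ball is at most `2`. -/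
theorem bump_radius {K : Set (EuclideanSpace ℝ (Fin 2))} (hK : K ⊆ closedBall 0 2) {r : ℝ}
    (hr : 0 ≤ r) (hv : volume (closedBall (0 : EuclideanSpace ℝ (Fin 2)) r) = volume K) :
    r ≤ 2 := by
  have h1 : volume (closedBall (0 : EuclideanSpace ℝ (Fin 2)) r) ≤
      volume (closedBall (0 : EuclideanSpace ℝ (Fin 2)) 2) := by
    rw [hv]; exact measure_mono hK
  rw [Measure.addHaar_closedBall _ _ hr, Measure.addHaar_closedBall _ _ (by norm_num : (0 : ℝ) ≤ 2),
    finrank_euclideanSpace_fin] at h1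
  have h2 : volume (ball (0 : EuclideanSpace ℝ (Fin 2)) 1) ≠ 0 :=
    (measure_ball_pos _ _ one_pos).ne'
  have h3 : volume (ball (0 : EuclideanSpace ℝ (Fin 2)) 1) ≠ ⊤ := measure_ball_lt_top.ne
  rw [ENNReal.mul_le_mul_iff_left h2 h3, ENNReal.ofReal_le_ofReal_iff (by norm_num)] at h1
  nlinarith

/-- Bathtub. -/
theorem bump_bath {M : ℕ} {w : ℂ} {ε r : ℝ} (hw : ‖w‖ = 1) (hM : M ≠ 0) (hε : 0 ≤ ε) (hr : 0 ≤ r)
    (hv : volume (closedBall (0 : EuclideanSpace ℝ (Fin 2)) r) = volume (bK M w ε)) :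
    inertia (bK M w ε) - inertia (closedBall (0 : EuclideanSpace ℝ (Fin 2)) r) ≤
      ε * ‖lam M (bK M w ε)‖ := by
  have hr2 : r ≤ 2 := bump_radius (bK_subset M w ε) hr hv
  have hK := isCompact_bK M w ε
  set K := bK M w ε with hKd
  set B := closedBall (0 : EuclideanSpace ℝ (Fin 2)) r with hBd
  have hB : IsCompact B := isCompact_closedBall _ _
  have hfK : IntegrableOn (bf M w ε) K :=
    (continuous_bf M w ε).continuousOn.integrableOn_compact hK
  have hfB : IntegrableOn (bf M w ε) B :=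
    (continuous_bf M w ε).continuousOn.integrableOn_compact hB
  have s1 : ∫ x in K, bf M w ε x = (∫ x in K ∩ B, bf M w ε x) + ∫ x in K \ B, bf M w ε x :=
    (integral_inter_add_sdiff hB.measurableSet hfK).symm
  have s2 : ∫ x in B, bf M w ε x = (∫ x in B ∩ K, bf M w ε x) + ∫ x in B \ K, bf M w ε x :=
    (integral_inter_add_sdiff hK.measurableSet hfB).symm
  have s3 : ∫ x in K \ B, bf M w ε x ≤ 0 :=
    setIntegral_nonpos (hK.measurableSet.diff hB.measurableSet) fun x hx => hx.1.2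
  have s4 : 0 ≤ ∫ x in B \ K, bf M w ε x := by
    refine setIntegral_nonneg (hB.measurableSet.diff hK.measurableSet) fun x hx => ?_
    by_contra hneg
    rw [not_le] at hneg
    refine hx.2 ⟨?_, hneg.le⟩
    have := hx.1
    rw [hBd, mem_closedBall_zero_iff] at this
    linarith
  rw [inter_comm B K] at s2
  have h1 := integral_bf M w ε hK
  have h2 := integral_bf M w ε hB
  have hlB : lam M B = 0 := lam_ball hM r
  rw [hlB, mul_zero, Complex.zero_re, mul_zero] at h2
  have hvr : volume.real B = volume.real K := by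
    unfold Measure.real
    rw [hv]
  have h3 : (w * lam M K).re ≤ ‖lam M K‖ := by
    refine (Complex.re_le_norm _).trans ?_
    rw [norm_mul, hw, one_mul]
  have h4 := mul_le_mul_of_nonneg_left h3 hε
  linarith

theorem bump_lam_ne {M : ℕ} {w : ℂ} {ε φ : ℝ} (hM : M ≠ 0) (hε : 0 < ε) (hε1 : ε < 1)
    (hφ : w * Complex.exp (φ * Complex.I) ^ M = 1) : lam M (bK M w ε) ≠ 0 := by
  intro h0
  have hc := continuous_zc
  have hK := isCompact_bK M w ε
  set K := bK M w ε with hKd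
  set B := closedBall (0 : EuclideanSpace ℝ (Fin 2)) 1 with hBd
  have hB : IsCompact B := isCompact_closedBall _ _
  set g : EuclideanSpace ℝ (Fin 2) → ℝ := fun x => (w * zc x ^ M).re with hg
  have hgc : Continuous g := by rw [hg]; fun_prop
  have hfK : IntegrableOn g K := hgc.continuousOn.integrableOn_compact hK
  have hfB : IntegrableOn g B := hgc.continuousOn.integrableOn_compact hB
  have s1 : ∫ x in K, g x = (∫ x in K ∩ B, g x) + ∫ x in K \ B, g x :=
    (integral_inter_add_sdiff hB.measurableSet hfK).symm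
  have s2 : ∫ x in B, g x = (∫ x in B ∩ K, g x) + ∫ x in B \ K, g x :=
    (integral_inter_add_sdiff hK.measurableSet hfB).symm
  have h1 : ∫ x in K, g x = 0 := by
    have := integral_bre M w hK
    rw [h0, mul_zero, Complex.zero_re] at this
    exact this
  have h2 : ∫ x in B, g x = 0 := by
    have := integral_bre M w hB
    rw [lam_ball hM, mul_zero, Complex.zero_re] at this
    exact this
  rw [inter_comm B K] at s2
  have s4 : ∫ x in B \ K, g x ≤ 0 := by
    refine setIntegral_nonpos (hB.measurableSet.diff hK.measurableSet) fun x hx => ?_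
    have hx1 : ‖x‖ ≤ 1 := by
      have := hx.1
      rwa [hBd, mem_closedBall_zero_iff] at this
    have hx2 : 0 < bf M w ε x := by
      by_contra hneg
      rw [not_lt] at hneg
      exact hx.2 ⟨by linarith, hneg⟩
    have hx3 : 0 < ‖x‖ ^ 2 - ε * g x - 1 := hx2
    have hx4 : ‖x‖ ^ 2 ≤ 1 := by nlinarith [norm_nonneg x]
    by_contra hneg
    rw [not_le] at hneg
    have := mul_pos hε hneg
    linarith
  have hpos : ∀ x ∈ K \ B, 0 < g x := by
    intro x hx
    have hx1 : 1 < ‖x‖ := by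
      have := hx.2
      rwa [hBd, mem_closedBall_zero_iff, not_le] at this
    have hx3 : ‖x‖ ^ 2 - ε * g x - 1 ≤ 0 := hx.1.2
    by_contra hneg
    rw [not_lt] at hneg
    have : ε * g x ≤ 0 := mul_nonpos_of_nonneg_of_nonpos hε.le hneg
    nlinarith
  have s3 : 0 < ∫ x in K \ B, g x := by
    rw [setIntegral_pos_iff_support_of_nonneg_ae]
    · have hU : IsOpen {x : EuclideanSpace ℝ (Fin 2) | 1 < ‖x‖ ∧ ‖x‖ < 2 ∧ bf M w ε x < 0} :=
        (isOpen_lt continuous_const continuous_norm).inter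
          ((isOpen_lt continuous_norm continuous_const).inter
            (isOpen_lt (continuous_bf M w ε) continuous_const))
      have hs : {x : EuclideanSpace ℝ (Fin 2) | 1 < ‖x‖ ∧ ‖x‖ < 2 ∧ bf M w ε x < 0} ⊆
          Function.support g ∩ (K \ B) := by
        rintro x ⟨hx1, hx2, hx3⟩
        have hx4 : x ∈ K \ B := by
          refine ⟨⟨hx2.le, hx3.le⟩, ?_⟩
          rw [hBd, mem_closedBall_zero_iff, not_le]
          exact hx1
        exact ⟨(hpos x hx4).ne', hx4⟩
      refine lt_of_lt_of_le (hU.measure_pos volume ?_) (measure_mono hs)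
      refine ⟨(1 + ε / 4) • dir φ, ?_⟩
      have hn : ‖(1 + ε / 4) • dir φ‖ = 1 + ε / 4 := by
        rw [norm_smul, norm_dir, mul_one, Real.norm_of_nonneg (by positivity)]
      have hz : zc ((1 + ε / 4) • dir φ) = ((1 + ε / 4 : ℝ) : ℂ) * Complex.exp (φ * Complex.I) := by
        apply Complex.ext
        · rw [Complex.re_ofReal_mul, Complex.exp_ofReal_mul_I_re]
          simp [zc, dir]
        · rw [Complex.im_ofReal_mul, Complex.exp_ofReal_mul_I_im]
          simp [zc, dir]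
      have hval : (w * zc ((1 + ε / 4) • dir φ) ^ M).re = (1 + ε / 4) ^ M := by
        rw [hz, mul_pow]
        have : w * (((1 + ε / 4 : ℝ) : ℂ) ^ M * Complex.exp (φ * Complex.I) ^ M) =
            (((1 + ε / 4) ^ M : ℝ) : ℂ) := by
          rw [Complex.ofReal_pow]
          linear_combination (((1 + ε / 4 : ℝ) : ℂ) ^ M) * hφ
        rw [this, Complex.ofReal_re]
      refine ⟨?_, ?_, ?_⟩
      · rw [hn]; linarith
      · rw [hn]; linarith
      · unfold bf
        rw [hn, hval]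
        have h5 : 1 ≤ (1 + ε / 4) ^ M := one_le_pow₀ (by linarith)
        have h6 : ε * 1 ≤ ε * (1 + ε / 4) ^ M := mul_le_mul_of_nonneg_left h5 hε.le
        nlinarith
    · filter_upwards [ae_restrict_mem (hK.measurableSet.diff hB.measurableSet)] with x hx
      exact (hpos x hx).le
    · exact hfK.mono_set sdiff_subset
  linarith

theorem exists_bump {M : ℕ} (hM : 3 ≤ M) (θ : ℝ) : ∃ ε₀ : ℝ, 0 < ε₀ ∧ ∀ ε : ℝ, 0 < ε → ε < ε₀ →
    ∃ K : Set (EuclideanSpace ℝ (Fin 2)), IsCompact K ∧ Convex ℝ K ∧ (interior K).Nonempty ∧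
      K ⊆ closedBall 0 2 ∧ rho (dir θ) '' K = K ∧ lam 1 K = 0 ∧ lam 2 K = 0 ∧ lam M K ≠ 0 ∧
      ∀ r : ℝ, 0 ≤ r → volume (closedBall (0 : EuclideanSpace ℝ (Fin 2)) r) = volume K →
        inertia K - inertia (closedBall (0 : EuclideanSpace ℝ (Fin 2)) r) ≤ ε * ‖lam M K‖ := by
  obtain ⟨C, D, hC, hD, -, hconv⟩ := bump_pow M
  have hM0 : M ≠ 0 := by omega
  refine ⟨min 1 (1 / (C + 1)), lt_min one_pos (by positivity), fun ε hε hεM => ?_⟩
  have hε1 : ε < 1 := hεM.trans_le (min_le_left _ _)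
  have hε2 : ε < 1 / (C + 1) := hεM.trans_le (min_le_right _ _)
  have hεC : ε * C ≤ 1 := by
    rw [lt_div_iff₀ (by positivity)] at hε2
    linarith
  set c : ℂ := Complex.exp (((Real.pi / 2 - θ : ℝ) : ℂ) * Complex.I) with hc
  have hcn : ‖c‖ = 1 := by rw [hc, Complex.norm_exp_ofReal_mul_I]
  have hw : ‖c ^ M‖ = 1 := by rw [norm_pow, hcn, one_pow]
  have hsym : (starRingEnd ℂ) (c ^ M) * ((-1) ^ M * Complex.exp (-(2 * θ * Complex.I)) ^ M) =
      c ^ M := by
    rw [map_pow, ← mul_pow, ← mul_pow]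
    congr 1
    rw [hc, ← Complex.exp_conj, map_mul, Complex.conj_I, Complex.conj_ofReal,
      ← Complex.exp_pi_mul_I, ← Complex.exp_add, ← Complex.exp_add]
    congr 1
    push_cast
    ring
  have hφ : c ^ M * Complex.exp (((θ - Real.pi / 2 : ℝ) : ℂ) * Complex.I) ^ M = 1 := by
    rw [← mul_pow, hc, ← Complex.exp_add]
    have : ((Real.pi / 2 - θ : ℝ) : ℂ) * Complex.I + ((θ - Real.pi / 2 : ℝ) : ℂ) * Complex.I = 0 := by
      push_cast
      ring
    rw [this, Complex.exp_zero, one_pow]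
  have hprim : IsPrimitiveRoot (Complex.exp (2 * ((Real.pi / M : ℝ) : ℂ) * Complex.I)) M := by
    have h := Complex.isPrimitiveRoot_exp M hM0
    have e : 2 * ((Real.pi / M : ℝ) : ℂ) * Complex.I = 2 * Real.pi * Complex.I / M := by
      push_cast
      ring
    rw [e]
    exact h
  have hrot : brot (Real.pi / M) '' bK M (c ^ M) ε = bK M (c ^ M) ε := by
    apply image_bK
    intro x
    unfold bf
    rw [LinearIsometryEquiv.norm_map, zc_brot, mul_pow, hprim.pow_eq_one, one_mul]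
  refine ⟨bK M (c ^ M) ε, isCompact_bK _ _ _, convex_bK hw hε.le hεC hconv,
    interior_bK hM0 _ _, bK_subset _ _ _, image_bK _ (rho_bK ε hsym), ?_, ?_,
    bump_lam_ne hM0 hε hε1 hφ, fun r hr hv => bump_bath hw hM0 hε.le hr hv⟩
  · exact lam_brot hrot 1 (hprim.pow_ne_one_of_pos_of_lt (by norm_num) (by omega))
  · exact lam_brot hrot 2 (hprim.pow_ne_one_of_pos_of_lt (by norm_num) (by omega))

end MP_02d86d_gt
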