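import Mathlib

/-! Convex bodies which are invariant under all linear isometries are balls; limits of images of
sets which tend to a ball are balls. -/

set_option autoImplicit false

namespace MP_02d86d_gt

open MeasureTheory Set Filter Topology Metric

variable {n : ℕ}

theorem ball_of_invariant {L : Set (EuclideanSpace ℝ (Fin n))} (hL : IsCompact L)
    (hc : Convex ℝ L) (hi : (interior L).Nonempty)
    (h : ∀ ψ : EuclideanSpace ℝ (Fin n) ≃ₗᵢ[ℝ] EuclideanSpace ℝ (Fin n), ψ '' L = L) :
    ∃ r : ℝ, 0 < r ∧ L = closedBall 0 r := by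
  have hne : L.Nonempty := hi.mono interior_subset
  obtain ⟨x₁, hx₁, hmax⟩ := hL.exists_isMaxOn hne continuous_norm.continuousOn
  have hmax' : ∀ y ∈ L, ‖y‖ ≤ ‖x₁‖ := fun y hy => hmax hy
  rcases eq_or_ne x₁ 0 with h0 | h0
  · -- the space is a point
    have hL0 : L ⊆ {0} := by
      intro y hy
      have := hmax' y hy
      rw [h0, norm_zero, norm_le_zero_iff] at this
      exact this
    obtain ⟨z, hz⟩ := hi
    obtain ⟨ε, hε, hball⟩ := Metric.isOpen_iff.1 isOpen_interior z hz
    have hz0 : z = 0 := hL0 (interior_subset hz)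
    subst hz0
    have hall : ∀ y : EuclideanSpace ℝ (Fin n), y = 0 := by
      intro y
      by_contra hy
      have hpos : 0 < ‖y‖ := norm_pos_iff.2 hy
      have h1 : (ε / (2 * ‖y‖)) • y ∈ ball (0 : EuclideanSpace ℝ (Fin n)) ε := by
        rw [mem_ball_zero_iff, norm_smul, Real.norm_eq_abs, abs_of_pos (by positivity)]
        have : ε / (2 * ‖y‖) * ‖y‖ = ε / 2 := by field_simp
        rw [this]
        linarith
      have h2 : (ε / (2 * ‖y‖)) • y = 0 := hL0 (interior_subset (hball h1))
      rcases smul_eq_zero.1 h2 with h3 | h3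
      · have : 0 < ε / (2 * ‖y‖) := by positivity
        linarith
      · exact hy h3
    refine ⟨1, one_pos, ?_⟩
    ext y
    rw [hall y]
    simp only [mem_closedBall_self zero_le_one, iff_true]
    exact interior_subset hz
  · have hr : 0 < ‖x₁‖ := norm_pos_iff.2 h0
    refine ⟨‖x₁‖, hr, Subset.antisymm (fun y hy => by simpa using hmax' y hy) ?_⟩
    have hsph : ∀ y : EuclideanSpace ℝ (Fin n), ‖y‖ = ‖x₁‖ → y ∈ L := by
      intro y hy
      have h1 : Submodule.reflection (ℝ ∙ (x₁ - y))ᗮ x₁ = y := Submodule.reflection_sub hy.symm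
      rw [← h (Submodule.reflection (ℝ ∙ (x₁ - y))ᗮ)]
      exact ⟨x₁, hx₁, h1⟩
    intro y hy
    have hy' : ‖y‖ ≤ ‖x₁‖ := by simpa using hy
    rcases eq_or_ne y 0 with hy0 | hy0
    · have h2 : -x₁ ∈ L := hsph _ (norm_neg _)
      have h3 := hc hx₁ h2 (a := 1 / 2) (b := 1 / 2) (by norm_num) (by norm_num) (by norm_num)
      have h4 : (1 / 2 : ℝ) • x₁ + (1 / 2 : ℝ) • (-x₁) = 0 := by
        rw [smul_neg, add_neg_cancel]
      rw [h4] at h3
      rw [hy0]
      exact h3
    · have hpos : 0 < ‖y‖ := norm_pos_iff.2 hy0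
      set u : EuclideanSpace ℝ (Fin n) := (‖x₁‖ / ‖y‖) • y with hu
      have hun : ‖u‖ = ‖x₁‖ := by
        rw [hu, norm_smul, Real.norm_eq_abs, abs_of_pos (by positivity)]
        field_simp
      have h1 : u ∈ L := hsph _ hun
      have h2 : -u ∈ L := hsph _ (by rw [norm_neg, hun])
      have hq : ‖y‖ / ‖x₁‖ ≤ 1 := (div_le_one hr).2 hy'
      have hq0 : 0 ≤ ‖y‖ / ‖x₁‖ := by positivity
      have h3 := hc h1 h2 (a := (1 + ‖y‖ / ‖x₁‖) / 2) (b := (1 - ‖y‖ / ‖x₁‖) / 2)
        (by linarith) (by linarith) (by ring)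
      have h4 : ((1 + ‖y‖ / ‖x₁‖) / 2) • u + ((1 - ‖y‖ / ‖x₁‖) / 2) • (-u) = y := by
        rw [smul_neg, ← sub_eq_add_neg, ← sub_smul, hu, smul_smul]
        have : ((1 + ‖y‖ / ‖x₁‖) / 2 - (1 - ‖y‖ / ‖x₁‖) / 2) * (‖x₁‖ / ‖y‖) = 1 := by
          field_simp
          ring
        rw [this, one_smul]
      rw [h4] at h3
      exact h3

theorem affine_of_ball_limit {K : ℕ → Set (EuclideanSpace ℝ (Fin n))} {r : ℝ} (hr : 0 < r)
    (hK : ∀ i, IsCompact (K i)) (hne : ∀ i, (K i).Nonempty)
    (h : Tendsto (fun i => hausdorffDist (K i) (closedBall 0 r)) atTop (𝓝 0))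
    (ψ : ℕ → IsometryEquiv (EuclideanSpace ℝ (Fin n)) (EuclideanSpace ℝ (Fin n)))
    {L : Set (EuclideanSpace ℝ (Fin n))} (hL : IsCompact L) (hLn : L.Nonempty)
    (hlim : Tendsto (fun i => hausdorffDist (ψ i '' K i) L) atTop (𝓝 0)) :
    ∃ A : AffineEquiv ℝ (EuclideanSpace ℝ (Fin n)) (EuclideanSpace ℝ (Fin n)),
      L = A '' closedBall (0 : EuclideanSpace ℝ (Fin n)) 1 := by
  have himg : ∀ i, ψ i '' closedBall 0 r = closedBall (ψ i 0) r := fun i =>
    (ψ i).image_closedBall 0 r
  have hbn : ∀ c : EuclideanSpace ℝ (Fin n), (closedBall c r).Nonempty := fun c =>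
    nonempty_closedBall.2 hr.le
  have hfin : ∀ {s t : Set (EuclideanSpace ℝ (Fin n))}, s.Nonempty → t.Nonempty →
      Bornology.IsBounded s → Bornology.IsBounded t → hausdorffEDist s t ≠ ⊤ :=
    fun hs ht bs bt => hausdorffEDist_ne_top_of_nonempty_of_bounded hs ht bs bt
  -- the balls tend to `L`
  have h1 : Tendsto (fun i => hausdorffDist (closedBall (ψ i 0) r) L) atTop (𝓝 0) := by
    have hle : ∀ i, hausdorffDist (closedBall (ψ i 0) r) L ≤
        hausdorffDist (K i) (closedBall 0 r) + hausdorffDist (ψ i '' K i) L := by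
      intro i
      have h2 : hausdorffDist (closedBall (ψ i 0) r) (ψ i '' K i) =
          hausdorffDist (K i) (closedBall 0 r) := by
        rw [← himg, hausdorffDist_comm, hausdorffDist_image (ψ i).isometry]
      have h3 := hausdorffDist_triangle (s := closedBall (ψ i 0) r) (t := ψ i '' K i) (u := L)
        (hfin (hbn _) ((hne i).image _) isBounded_closedBall
          ((hK i).image (ψ i).continuous).isBounded)
      rw [h2] at h3
      exact h3
    refine squeeze_zero (fun i => hausdorffDist_nonneg) hle ?_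
    simpa using h.add hlim
  -- the centres are bounded
  obtain ⟨M, hM⟩ := hL.isBounded.subset_closedBall 0
  obtain ⟨B, hB⟩ := h1.bddAbove_range
  have hcb : ∀ i, ψ i 0 ∈ closedBall (0 : EuclideanSpace ℝ (Fin n)) (M + B + 1) := by
    intro i
    have h2 : hausdorffDist (closedBall (ψ i 0) r) L < B + 1 := by
      have := hB (mem_range_self i)
      linarith
    obtain ⟨y, hy, hdy⟩ := exists_dist_lt_of_hausdorffDist_lt
      (mem_closedBall_self hr.le : ψ i 0 ∈ closedBall (ψ i 0) r) h2
      (hfin (hbn _) hLn isBounded_closedBall hL.isBounded)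
    have h3 := hM hy
    rw [mem_closedBall] at h3 ⊢
    calc dist (ψ i 0) 0 ≤ dist (ψ i 0) y + dist y 0 := dist_triangle _ _ _
      _ ≤ _ := by linarith
  obtain ⟨c, _, φ, hφ, hlimc⟩ := (isCompact_closedBall (0 : EuclideanSpace ℝ (Fin n))
    (M + B + 1)).tendsto_subseq hcb
  -- `L` is the ball with centre `c`
  have hLc : L = closedBall c r := by
    have h2 : hausdorffDist L (closedBall c r) = 0 := by
      refine le_antisymm ?_ hausdorffDist_nonneg
      have h3 : ∀ i, hausdorffDist L (closedBall c r) ≤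
          hausdorffDist (closedBall (ψ (φ i) 0) r) L + dist (ψ (φ i) 0) c := by
        intro i
        have h4 := hausdorffDist_triangle (s := L) (t := closedBall (ψ (φ i) 0) r)
          (u := closedBall c r) (hfin hLn (hbn _) hL.isBounded isBounded_closedBall)
        have h5 : hausdorffDist (closedBall (ψ (φ i) 0) r) (closedBall c r) ≤
            dist (ψ (φ i) 0) c := by
          apply hausdorffDist_le_of_mem_dist dist_nonneg
          · intro x hx
            refine ⟨x + (c - ψ (φ i) 0), ?_, ?_⟩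
            · rw [mem_closedBall, dist_eq_norm] at hx ⊢
              convert hx using 2
              abel
            · rw [dist_eq_norm, dist_eq_norm]
              apply le_of_eq
              congr 1
              abel
          · intro x hx
            refine ⟨x - (c - ψ (φ i) 0), ?_, ?_⟩
            · rw [mem_closedBall, dist_eq_norm] at hx ⊢
              convert hx using 2
              abel
            · rw [dist_eq_norm, dist_eq_norm, ← norm_neg]
              apply le_of_eq
              congr 1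
              abel
        rw [hausdorffDist_comm (s := L) (t := closedBall (ψ (φ i) 0) r)] at h4
        linarith
      have h6 : Tendsto (fun i => hausdorffDist (closedBall (ψ (φ i) 0) r) L +
          dist (ψ (φ i) 0) c) atTop (𝓝 (0 + 0)) := by
        refine (h1.comp hφ.tendsto_atTop).add ?_
        exact tendsto_iff_dist_tendsto_zero.1 hlimc
      rw [add_zero] at h6
      exact ge_of_tendsto' h6 h3
    exact (hL.isClosed.hausdorffDist_zero_iff_eq isClosed_closedBall
      (hfin hLn (hbn _) hL.isBounded isBounded_closedBall)).1 h2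
  -- the affine map
  refine ⟨(AffineEquiv.homothetyUnitsMulHom (0 : EuclideanSpace ℝ (Fin n))
    (Units.mk0 r hr.ne')).trans (AffineEquiv.constVAdd ℝ _ c), ?_⟩
  rw [hLc]
  ext x
  simp only [mem_image, mem_closedBall]
  constructor
  · intro hx
    refine ⟨r⁻¹ • (x - c), ?_, ?_⟩
    · rw [dist_zero_right, norm_smul, Real.norm_eq_abs, abs_of_pos (inv_pos.2 hr),
        ← dist_eq_norm, inv_mul_le_iff₀ hr, mul_one]
      exact hx
    · simp [AffineMap.homothety_apply, smul_smul, hr.ne']
  · rintro ⟨y, hy, rfl⟩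
    rw [dist_zero_right] at hy
    simp only [AffineEquiv.trans_apply, AffineEquiv.constVAdd_apply, vadd_eq_add,
      AffineEquiv.coe_homothetyUnitsMulHom_apply, Units.val_mk0, AffineMap.homothety_apply,
      vsub_eq_sub, sub_zero, add_zero]
    rw [dist_eq_norm, add_sub_cancel_left, norm_smul, Real.norm_eq_abs, abs_of_pos hr]
    nlinarith

end MP_02d86d_gt
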