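import Pool.Agent.Work.MP_02d86d_gt.Comp
import Pool.Agent.Work.MP_02d86d_gt.Plane.Defs2

/-! Continuity of integrals over convex bodies along Hausdorff convergence. -/

set_option autoImplicit false

namespace MP_02d86d_gt

open MeasureTheory Set Filter Topology Metric

variable {n : ℕ}

theorem tendsto_setIntegral {E : Type} [NormedAddCommGroup E] [NormedSpace ℝ E]
    {K : ℕ → Set (EuclideanSpace ℝ (Fin n))} {L : Set (EuclideanSpace ℝ (Fin n))} {R : ℝ}
    (hK : ∀ i, (K i).Nonempty) (hL : L.Nonempty)
    (cK : ∀ i, IsCompact (K i)) (cL : IsCompact L) (vK : ∀ i, Convex ℝ (K i)) (vL : Convex ℝ L)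
    (bK : ∀ i, K i ⊆ closedBall 0 R)
    (h : Tendsto (fun i => hausdorffDist (K i) L) atTop (𝓝 0))
    {g : EuclideanSpace ℝ (Fin n) → E} (hg : Continuous g) :
    Tendsto (fun i => ∫ x in K i, g x) atTop (𝓝 (∫ x in L, g x)) := by
  rw [← integral_indicator cL.measurableSet]
  simp only [fun i => (integral_indicator (f := g) (μ := volume) (cK i).measurableSet).symm]
  obtain ⟨C, hC⟩ := (isCompact_closedBall (0 : EuclideanSpace ℝ (Fin n)) R).exists_bound_of_continuousOn
    hg.continuousOn
  refine tendsto_integral_of_dominated_convergence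
    ((closedBall (0 : EuclideanSpace ℝ (Fin n)) R).indicator fun _ => |C|) ?_ ?_ ?_ ?_
  · intro i
    exact AEStronglyMeasurable.indicator hg.aestronglyMeasurable (cK i).measurableSet
  · exact (integrable_indicator_iff measurableSet_closedBall).2
      (integrableOn_const measure_closedBall_lt_top.ne)
  · intro i
    refine Eventually.of_forall fun x => ?_
    by_cases hx : x ∈ K i
    · rw [indicator_of_mem hx, indicator_of_mem (bK i hx)]
      exact (hC x (bK i hx)).trans (le_abs_self C)
    · rw [indicator_of_notMem hx, norm_zero]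
      exact indicator_nonneg (fun _ _ => abs_nonneg C) x
  · filter_upwards [ae_mem_iff hK hL cK cL vK vL h] with x hx
    refine tendsto_const_nhds.congr' ?_
    filter_upwards [hx] with i hi
    by_cases hxL : x ∈ L
    · rw [indicator_of_mem hxL, indicator_of_mem (hi.2 hxL)]
    · rw [indicator_of_notMem hxL, indicator_of_notMem fun h => hxL (hi.1 h)]

theorem tendsto_Th {K : ℕ → Set (EuclideanSpace ℝ (Fin n))}
    {L : Set (EuclideanSpace ℝ (Fin n))} {R : ℝ}
    (hK : ∀ i, (K i).Nonempty) (hL : L.Nonempty)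
    (cK : ∀ i, IsCompact (K i)) (cL : IsCompact L) (vK : ∀ i, Convex ℝ (K i)) (vL : Convex ℝ L)
    (bK : ∀ i, K i ⊆ closedBall 0 R)
    (h : Tendsto (fun i => hausdorffDist (K i) L) atTop (𝓝 0)) (ξ : EuclideanSpace ℝ (Fin n)) :
    Tendsto (fun i => Th (K i) ξ) atTop (𝓝 (Th L ξ)) := by
  have h1 : ∀ A : Set (EuclideanSpace ℝ (Fin n)), Th A ξ =
      ∫ x in A, Complex.exp (inner ℝ x ξ * Complex.I) := fun A => charFun_apply ξ
  simp only [h1]
  exact tendsto_setIntegral hK hL cK cL vK vL bK h (by fun_prop)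

section Plane

variable {K : ℕ → Set (EuclideanSpace ℝ (Fin 2))} {L : Set (EuclideanSpace ℝ (Fin 2))} {R : ℝ}
  (hK : ∀ i, (K i).Nonempty) (hL : L.Nonempty)
  (cK : ∀ i, IsCompact (K i)) (cL : IsCompact L) (vK : ∀ i, Convex ℝ (K i)) (vL : Convex ℝ L)
  (bK : ∀ i, K i ⊆ closedBall 0 R)
  (h : Tendsto (fun i => hausdorffDist (K i) L) atTop (𝓝 0))
include hK hL cK cL vK vL bK h

theorem tendsto_lam (M : ℕ) : Tendsto (fun i => lam M (K i)) atTop (𝓝 (lam M L)) := by
  unfold lam
  exact tendsto_setIntegral hK hL cK cL vK vL bK h (continuous_zc.pow M)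

theorem tendsto_mode (s : ℝ) (m : ℤ) :
    Tendsto (fun i => mode s m (K i)) atTop (𝓝 (mode s m L)) := by
  unfold mode
  have hdir : Continuous fun φ : ℝ => s • dir φ := by
    unfold dir
    refine Continuous.const_smul ?_ s
    refine (PiLp.continuous_toLp 2 _).comp (continuous_pi fun i => ?_)
    fin_cases i
    · exact Real.continuous_cos
    · exact Real.continuous_sin
  have hexp : Continuous fun φ : ℝ => Complex.exp (-(m * φ * Complex.I)) := by fun_prop
  refine intervalIntegral.tendsto_integral_filter_of_dominated_convergence (fun _ =>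
    (volume (closedBall (0 : EuclideanSpace ℝ (Fin 2)) R)).toReal)
    (Eventually.of_forall fun i => ?_) (Eventually.of_forall fun i => ?_) (by simp) ?_
  · exact (((continuous_Th (cK i)).comp hdir).mul hexp).aestronglyMeasurable
  · refine Eventually.of_forall fun φ _ => ?_
    have h1 : ‖Complex.exp (-(m * φ * Complex.I))‖ = 1 := by
      have : (-(m * φ * Complex.I) : ℂ) = ((-(m * φ) : ℝ) : ℂ) * Complex.I := by
        push_cast; ring
      rw [this, Complex.norm_exp_ofReal_mul_I]
    rw [norm_mul, h1, mul_one]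
    exact norm_Th_le' (cK i) (bK i) _
  · refine Eventually.of_forall fun φ _ => ?_
    exact (tendsto_Th hK hL cK cL vK vL bK h _).mul tendsto_const_nhds

end Plane

end MP_02d86d_gt
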