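import Mathlib

/-! Two lemmas on perturbed products. -/

set_option autoImplicit false

namespace MP_02d86d_gt

open Filter Topology Finset

/-- If `|a (i+1)| <= |c i| |a i| + e i` with summable `e` and the sum of `1 - c^2` diverges,
then `a` tends to `0`. -/
theorem tendsto_zero_of_contract {a c e : ℕ → ℝ} (ha : ∀ i, 0 ≤ a i) (hc : ∀ i, |c i| ≤ 1)
    (he : ∀ i, 0 ≤ e i) (hs : Summable e) (h : ∀ i, a (i + 1) ≤ |c i| * a i + e i)
    (hd : ¬ Summable fun i => 1 - c i ^ 2) : Tendsto a atTop (𝓝 0) := by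
  -- finite sums of e
  set E : ℕ → ℝ := fun i => ∑ j ∈ range i, e j with hE
  have hEl : Tendsto E atTop (𝓝 (∑' j, e j)) := hs.hasSum.tendsto_sum_nat
  set b : ℕ → ℝ := fun i => a i - E i with hb
  have hbs : ∀ i, b (i + 1) ≤ b i - (1 - |c i|) * a i := by
    intro i
    simp only [hb, hE, sum_range_succ]
    have := h i
    nlinarith
  have hanti : Antitone b := antitone_nat_of_succ_le fun i => by
    have := hbs i
    have h2 : 0 ≤ (1 - |c i|) * a i := mul_nonneg (by linarith [hc i]) (ha i)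
    linarith
  have hbdd : ∀ i, -(∑' j, e j) ≤ b i := by
    intro i
    have h1 : E i ≤ ∑' j, e j := hs.sum_le_tsum _ fun j _ => he j
    have := ha i
    simp only [hb]
    linarith
  obtain ⟨l, hl⟩ : ∃ l, Tendsto b atTop (𝓝 l) :=
    ⟨_, tendsto_atTop_ciInf hanti ⟨-(∑' j, e j), by rintro _ ⟨i, rfl⟩; exact hbdd i⟩⟩
  have hal : Tendsto a atTop (𝓝 (l + ∑' j, e j)) := by
    have := hl.add hEl
    refine this.congr fun i => ?_
    simp only [hb]
    ring
  set L := l + ∑' j, e j with hL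
  have hL0 : 0 ≤ L := ge_of_tendsto' hal ha
  rcases hL0.eq_or_lt with h0 | h0
  · rw [h0]; exact hal
  exfalso
  apply hd
  -- eventually a i >= L/2
  obtain ⟨N, hN⟩ : ∃ N, ∀ i, N ≤ i → L / 2 ≤ a i := by
    have : ∀ᶠ i in atTop, L / 2 < a i := hal.eventually_const_lt (by linarith)
    obtain ⟨N, hN⟩ := eventually_atTop.1 this
    exact ⟨N, fun i hi => (hN i hi).le⟩
  have h1 : ∀ i, 0 ≤ 1 - c i ^ 2 := fun i => by
    have := hc i
    have h2 := abs_nonneg (c i)
    rw [← sq_abs]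
    nlinarith
  have h2 : ∀ m, ∑ j ∈ range m, (1 - c (j + N) ^ 2) * (L / 4) ≤ b N - b (m + N) := by
    intro m
    induction m with
    | zero => simp
    | succ m ih =>
      rw [sum_range_succ]
      have h3 := hbs (m + N)
      have h4 := hN (m + N) (by omega)
      have h5 : (1 - c (m + N) ^ 2) * (L / 4) ≤ (1 - |c (m + N)|) * a (m + N) := by
        have h6 : 1 - c (m + N) ^ 2 ≤ 2 * (1 - |c (m + N)|) := by
          rw [← sq_abs]
          nlinarith [sq_nonneg (1 - |c (m + N)|)]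
        have h7 : 0 ≤ 1 - |c (m + N)| := by linarith [hc (m + N)]
        nlinarith
      have e1 : m + 1 + N = m + N + 1 := by ring
      rw [e1]
      linarith
  have h3 : Summable fun j => (1 - c (j + N) ^ 2) * (L / 4) := by
    refine summable_of_sum_range_le (c := b N + ∑' j, e j) (fun j => ?_) fun m => ?_
    · exact mul_nonneg (h1 _) (by linarith)
    · exact (h2 m).trans (by linarith [hbdd (m + N)])
  have h4 : Summable fun j => (1 - c (j + N) ^ 2) := by
    have := h3.mul_right (L / 4)⁻¹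
    refine this.congr fun j => ?_
    field_simp
  exact (summable_nat_add_iff (f := fun i => 1 - c i ^ 2) N).1 h4

/-- The finite products of numbers `c` with summable `1 - c^2`, from an index where `c^2 >= 1/2`,
are bounded below. -/
theorem exists_prod_ge {c : ℕ → ℝ} (hc : ∀ i, |c i| ≤ 1) (hs : Summable fun i => 1 - c i ^ 2) :
    ∃ N : ℕ, ∃ δ : ℝ, 0 < δ ∧ ∀ j, N ≤ j → ∀ m, δ ≤ ∏ i ∈ range m, |c (j + i)| := by
  have h1 : ∀ i, 0 ≤ 1 - c i ^ 2 := fun i => by
    have := hc i
    have h2 := abs_nonneg (c i)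
    rw [← sq_abs]
    nlinarith
  obtain ⟨N, hN⟩ : ∃ N, ∀ i, N ≤ i → 1 - c i ^ 2 ≤ 1 / 2 := by
    have : ∀ᶠ i in atTop, 1 - c i ^ 2 < 1 / 2 :=
      hs.tendsto_atTop_zero.eventually_lt_const (by norm_num)
    obtain ⟨N, hN⟩ := eventually_atTop.1 this
    exact ⟨N, fun i hi => (hN i hi).le⟩
  refine ⟨N, Real.exp (-(∑' i, (1 - c i ^ 2))), Real.exp_pos _, fun j hj m => ?_⟩
  have h2 : ∀ i, Real.exp (-(1 - c (j + i) ^ 2)) ≤ |c (j + i)| := by
    intro i
    have h3 := hN (j + i) (by omega)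
    have h4 : 1 / 2 ≤ c (j + i) ^ 2 := by linarith
    have h5 : 0 < |c (j + i)| := by
      rw [abs_pos]
      intro h
      rw [h] at h4
      norm_num at h4
    rw [← Real.le_log_iff_exp_le h5]
    have h6 : Real.log |c (j + i)| = (1 / 2) * Real.log (c (j + i) ^ 2) := by
      rw [Real.log_pow, Real.log_abs]
      push_cast
      ring
    have h7 := Real.one_sub_inv_le_log_of_pos (x := c (j + i) ^ 2) (by linarith)
    rw [h6]
    have h8 : (c (j + i) ^ 2)⁻¹ ≤ 2 := by
      rw [inv_le_comm₀ (by linarith) (by norm_num)]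
      linarith
    have h9 : -(1 - c (j + i) ^ 2) * 2 ≤ 1 - (c (j + i) ^ 2)⁻¹ := by
      have h10 : 1 - (c (j + i) ^ 2)⁻¹ = -(1 - c (j + i) ^ 2) * (c (j + i) ^ 2)⁻¹ := by
        have : c (j + i) ^ 2 * (c (j + i) ^ 2)⁻¹ = 1 := mul_inv_cancel₀ (by linarith)
        linear_combination (-1 : ℝ) * this
      rw [h10]
      have := h1 (j + i)
      nlinarith
    linarith
  calc Real.exp (-(∑' i, (1 - c i ^ 2))) ≤ Real.exp (∑ i ∈ range m, -(1 - c (j + i) ^ 2)) := by
        apply Real.exp_le_exp.2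
        rw [sum_neg_distrib, neg_le_neg_iff]
        have h3 : ∑ i ∈ range m, (1 - c (j + i) ^ 2) = ∑ i ∈ (range m).map (addLeftEmbedding j),
            (1 - c i ^ 2) := by
          rw [sum_map]
          rfl
        rw [h3]
        exact hs.sum_le_tsum _ fun i _ => h1 i
    _ = ∏ i ∈ range m, Real.exp (-(1 - c (j + i) ^ 2)) := Real.exp_sum _ _
    _ ≤ ∏ i ∈ range m, |c (j + i)| :=
        prod_le_prod (fun i _ => (Real.exp_pos _).le) fun i _ => h2 i

/-- Lower bound for a perturbed product. -/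
theorem perturbed_ge {a c e : ℕ → ℝ} (hc : ∀ i, |c i| ≤ 1)
    (he : ∀ i, 0 ≤ e i) (h : ∀ i, |c i| * a i - e i ≤ a (i + 1)) (j m : ℕ) :
    (∏ i ∈ range m, |c (j + i)|) * a j - ∑ i ∈ range m, e (j + i) ≤ a (j + m) := by
  induction m with
  | zero => simp
  | succ m ih =>
    rw [prod_range_succ, sum_range_succ]
    have h1 := h (j + m)
    have e1 : j + (m + 1) = j + m + 1 := by ring
    rw [e1]
    have h2 : |c (j + m)| * ((∏ i ∈ range m, |c (j + i)|) * a j - ∑ i ∈ range m, e (j + i)) ≤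
        |c (j + m)| * a (j + m) := mul_le_mul_of_nonneg_left ih (abs_nonneg _)
    have h3 : |c (j + m)| * (∑ i ∈ range m, e (j + i)) ≤ ∑ i ∈ range m, e (j + i) := by
      have h4 : 0 ≤ ∑ i ∈ range m, e (j + i) := sum_nonneg fun i _ => he _
      nlinarith [hc (j + m)]
    nlinarith

end MP_02d86d_gt
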