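import Pool.Agent.Work.MP_02d86d_gt.Plane.Defs2
import Pool.Agent.Work.MP_02d86d_gt.Plane.Real12

/-! The ball has the least moment of inertia among the sets of the same volume. -/

set_option autoImplicit false

namespace MP_02d86d_gt

open MeasureTheory Set Filter Topology Metric

variable {n : ℕ}

/-- Bathtub: `∫_B |x|^2 <= ∫_K |x|^2` for the ball `B` of the same volume. -/
theorem inertia_ball_le' {K : Set (EuclideanSpace ℝ (Fin n))} (hK : MeasurableSet K)
    (hi : IntegrableOn (fun x => ‖x‖ ^ 2) K) {r : ℝ} (hr : 0 ≤ r)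
    (hv : volume K = volume (closedBall (0 : EuclideanSpace ℝ (Fin n)) r)) :
    ∫ x in closedBall (0 : EuclideanSpace ℝ (Fin n)) r, ‖x‖ ^ 2 ≤ ∫ x in K, ‖x‖ ^ 2 := by
  set B := closedBall (0 : EuclideanSpace ℝ (Fin n)) r with hB
  have hBm : MeasurableSet B := measurableSet_closedBall
  have hBf : volume B ≠ ⊤ := (isCompact_closedBall _ _).measure_lt_top.ne
  have hKf : volume K ≠ ⊤ := by rw [hv]; exact hBf
  have hiB : IntegrableOn (fun x : EuclideanSpace ℝ (Fin n) => ‖x‖ ^ 2) B :=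
    (by fun_prop : Continuous fun x : EuclideanSpace ℝ (Fin n) => ‖x‖ ^ 2).continuousOn.integrableOn_compact
      (isCompact_closedBall _ _)
  -- the function f = |x|^2 - r^2
  have hfK : IntegrableOn (fun x : EuclideanSpace ℝ (Fin n) => ‖x‖ ^ 2 - r ^ 2) K :=
    hi.sub (integrableOn_const hKf)
  have hfB : IntegrableOn (fun x : EuclideanSpace ℝ (Fin n) => ‖x‖ ^ 2 - r ^ 2) B :=
    hiB.sub (integrableOn_const hBf)
  have eK : ∫ x in K, (‖x‖ ^ 2 - r ^ 2) = (∫ x in K, ‖x‖ ^ 2) - volume.real K * r ^ 2 := by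
    rw [integral_sub hi (integrableOn_const hKf), setIntegral_const]
    simp
  have eB : ∫ x in B, (‖x‖ ^ 2 - r ^ 2) = (∫ x in B, ‖x‖ ^ 2) - volume.real B * r ^ 2 := by
    rw [integral_sub hiB (integrableOn_const hBf), setIntegral_const]
    simp
  have hvr : volume.real K = volume.real B := by
    unfold Measure.real
    rw [hv]
  have s1 : ∫ x in K, (‖x‖ ^ 2 - r ^ 2) = (∫ x in K ∩ B, (‖x‖ ^ 2 - r ^ 2)) +
      ∫ x in K \ B, (‖x‖ ^ 2 - r ^ 2) := (integral_inter_add_sdiff hBm hfK).symm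
  have s2 : ∫ x in B, (‖x‖ ^ 2 - r ^ 2) = (∫ x in B ∩ K, (‖x‖ ^ 2 - r ^ 2)) +
      ∫ x in B \ K, (‖x‖ ^ 2 - r ^ 2) := (integral_inter_add_sdiff hK hfB).symm
  have s3 : 0 ≤ ∫ x in K \ B, (‖x‖ ^ 2 - r ^ 2) := by
    refine setIntegral_nonneg (hK.diff hBm) fun x hx => ?_
    have hx2 : r < ‖x‖ := by
      have := hx.2
      rw [hB, mem_closedBall_zero_iff, not_le] at this
      exact this
    nlinarith [norm_nonneg x]
  have s4 : ∫ x in B \ K, (‖x‖ ^ 2 - r ^ 2) ≤ 0 := by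
    refine setIntegral_nonpos (hBm.diff hK) fun x hx => ?_
    have hx2 : ‖x‖ ≤ r := by
      have := hx.1
      rw [hB, mem_closedBall_zero_iff] at this
      exact this
    nlinarith [norm_nonneg x]
  rw [inter_comm B K] at s2
  have : ∫ x in B, (‖x‖ ^ 2 - r ^ 2) ≤ ∫ x in K, (‖x‖ ^ 2 - r ^ 2) := by
    rw [s1, s2]; linarith
  rw [eK, eB, hvr] at this
  linarith

/-- The ball of a given volume. -/
theorem exists_closedBall_volume (hn : 1 ≤ n) {K : Set (EuclideanSpace ℝ (Fin n))}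
    (hK : volume K ≠ ⊤) :
    ∃ r : ℝ, 0 ≤ r ∧ volume K = volume (closedBall (0 : EuclideanSpace ℝ (Fin n)) r) := by
  have : Nonempty (Fin n) := ⟨⟨0, hn⟩⟩
  set v : ℝ := (volume (closedBall (0 : EuclideanSpace ℝ (Fin n)) 1)).toReal with hv
  have hvt : volume (closedBall (0 : EuclideanSpace ℝ (Fin n)) 1) ≠ ⊤ :=
    (isCompact_closedBall _ _).measure_lt_top.ne
  have hv0 : 0 < v := ENNReal.toReal_pos
    (by exact (measure_closedBall_pos volume (0 : EuclideanSpace ℝ (Fin n)) one_pos).ne') hvt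
  refine ⟨((volume K).toReal / v) ^ ((n : ℝ)⁻¹), Real.rpow_nonneg (by positivity) _, ?_⟩
  rw [Measure.addHaar_closedBall' volume _ (Real.rpow_nonneg (by positivity) _),
    finrank_euclideanSpace_fin, Real.rpow_inv_natCast_pow (by positivity) (by omega)]
  have hball : volume (closedBall (0 : EuclideanSpace ℝ (Fin n)) 1) = ENNReal.ofReal v := by
    rw [hv, ENNReal.ofReal_toReal hvt]
  rw [hball, ← ENNReal.ofReal_mul (by positivity), div_mul_cancel₀ _ hv0.ne',
    ENNReal.ofReal_toReal hK]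

theorem inertia_ball_le {K : Set (EuclideanSpace ℝ (Fin n))} (hK : IsCompact K) {r : ℝ}
    (hr : 0 ≤ r) (hv : volume (closedBall (0 : EuclideanSpace ℝ (Fin n)) r) = volume K) :
    inertia (closedBall (0 : EuclideanSpace ℝ (Fin n)) r) ≤ inertia K := by
  have hi : IntegrableOn (fun x : EuclideanSpace ℝ (Fin n) => ‖x‖ ^ 2) K :=
    (by fun_prop : Continuous fun x : EuclideanSpace ℝ (Fin n) => ‖x‖ ^ 2).continuousOn.integrableOn_compact hK
  exact inertia_ball_le' hK.measurableSet hi hr hv.symm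

theorem exists_radius {K : Set (EuclideanSpace ℝ (Fin 2))} (hK : IsCompact K) :
    ∃ r : ℝ, 0 ≤ r ∧ volume (closedBall (0 : EuclideanSpace ℝ (Fin 2)) r) = volume K := by
  obtain ⟨r, hr, h⟩ := exists_closedBall_volume (n := 2) (by norm_num) hK.measure_lt_top.ne
  exact ⟨r, hr, h.symm⟩

theorem real_lemma1 {x c d : ℕ → ℝ} (hx : ∀ i, 0 ≤ x i) (hc0 : ∀ i, 0 ≤ c i)
    (hc1 : ∀ i, c i ≤ 1) (hd0 : ∀ i, 0 ≤ d i) (hd : Summable d)
    (hstep : ∀ i, x (i + 1) ≤ c i * x i + d i) (hdiv : ¬ Summable fun i => 1 - c i ^ 2) :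
    Tendsto x atTop (𝓝 0) := by
  refine tendsto_zero_of_contract (c := c) hx (fun i => ?_) hd0 hd (fun i => ?_) hdiv
  · rw [abs_of_nonneg (hc0 i)]; exact hc1 i
  · rw [abs_of_nonneg (hc0 i)]; exact hstep i

theorem real_lemma2 {x c d : ℕ → ℝ} (hx : 0 ≤ x 0) (hc0 : ∀ i, 0 ≤ c i) (hc1 : ∀ i, c i ≤ 1)
    (hd0 : ∀ i, 0 ≤ d i) (hsum : ∀ N, ∑ i ∈ Finset.range N, (1 - c i ^ 2) ≤ 1 / 2)
    (hstep : ∀ i, c i * x i - d i ≤ x (i + 1)) (N : ℕ) :
    x 0 / 2 - ∑ i ∈ Finset.range N, d i ≤ x N := by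
  have h1 := perturbed_ge (a := x) (c := c) (e := d)
    (fun i => by rw [abs_of_nonneg (hc0 i)]; exact hc1 i) hd0
    (fun i => by rw [abs_of_nonneg (hc0 i)]; exact hstep i) 0 N
  simp only [zero_add] at h1
  have h2 : ∏ i ∈ Finset.range N, |c i| = ∏ i ∈ Finset.range N, c i :=
    Finset.prod_congr rfl fun i _ => abs_of_nonneg (hc0 i)
  rw [h2] at h1
  have h3 : ∀ m, 1 - ∑ i ∈ Finset.range m, (1 - c i ^ 2) ≤ ∏ i ∈ Finset.range m, c i := by
    intro m
    induction m with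
    | zero => simp
    | succ m ih =>
      rw [Finset.sum_range_succ, Finset.prod_range_succ]
      have h4 : 0 ≤ ∏ i ∈ Finset.range m, c i := Finset.prod_nonneg fun i _ => hc0 i
      have h5 : ∏ i ∈ Finset.range m, c i ≤ 1 :=
        Finset.prod_le_one (fun i _ => hc0 i) fun i _ => hc1 i
      have h6 : 1 - c m ≤ 1 - c m ^ 2 := by nlinarith [hc0 m, hc1 m]
      have h7 : (∏ i ∈ Finset.range m, c i) * (1 - c m) ≤ 1 - c m := by
        have := hc1 m
        nlinarith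
      nlinarith
  have h4 := h3 N
  have h5 := hsum N
  nlinarith

end MP_02d86d_gt
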