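import Pool.Agent.Work.MP_02d86d_gt.Main
import Pool.Agent.Work.MP_02d86d_gt.Plane.Modes
import Pool.Agent.Work.MP_02d86d_gt.Plane.Sym
import Pool.Agent.Work.MP_02d86d_gt.Plane.Ball
import Pool.Agent.Work.MP_02d86d_gt.Plane.Inertia
import Pool.Agent.Work.MP_02d86d_gt.Plane.Cont

/-! If all the sums of `sin (m δ_i)^2` diverge, the iterated symmetrals converge to a disc. -/

set_option autoImplicit false

namespace MP_02d86d_gt

open MeasureTheory Set Filter Topology Metric

variable {n : ℕ}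

private theorem interior_nonempty_of_volume {L : Set (EuclideanSpace ℝ (Fin n))} (hc : Convex ℝ L)
    (hv : volume L ≠ 0) : (interior L).Nonempty := by
  by_contra h
  rw [not_nonempty_iff_eq_empty] at h
  apply hv
  have h1 : volume (frontier L) = 0 := hc.addHaar_frontier volume
  refine measure_mono_null ?_ h1
  intro x hx
  refine ⟨subset_closure hx, ?_⟩
  rw [h]
  exact notMem_empty x

theorem radius_unique (hn : 1 ≤ n) {r r' : ℝ} (hr : 0 ≤ r) (hr' : 0 ≤ r')
    (h : volume (closedBall (0 : EuclideanSpace ℝ (Fin n)) r) =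
      volume (closedBall (0 : EuclideanSpace ℝ (Fin n)) r')) : r = r' := by
  have : Nonempty (Fin n) := ⟨⟨0, hn⟩⟩
  rw [Measure.addHaar_closedBall' volume _ hr, Measure.addHaar_closedBall' volume _ hr',
    finrank_euclideanSpace_fin] at h
  have hvt : volume (closedBall (0 : EuclideanSpace ℝ (Fin n)) 1) ≠ ⊤ :=
    (isCompact_closedBall _ _).measure_lt_top.ne
  have hv0 : volume (closedBall (0 : EuclideanSpace ℝ (Fin n)) 1) ≠ 0 :=
    (measure_closedBall_pos volume (0 : EuclideanSpace ℝ (Fin n)) one_pos).ne'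
  have h1 := (ENNReal.mul_left_inj hv0 hvt).1 h
  have h2 : r ^ n = r' ^ n := by
    have := (ENNReal.ofReal_eq_ofReal_iff (by positivity) (by positivity)).1 h1
    exact this
  exact (pow_left_inj₀ hr hr' (by omega)).1 h2

section

variable {θ : ℕ → ℝ} {R : ℝ} {K : ℕ → Set (EuclideanSpace ℝ (Fin 2))}

theorem Iter.summable_dlt {n : ℕ} {R : ℝ} {u : ℕ → EuclideanSpace ℝ (Fin n)}
    {K : ℕ → Set (EuclideanSpace ℝ (Fin n))} (h : Iter R u K) :
    Summable fun i => Dlt (u i) (K i) := by
  refine summable_of_sum_range_le (c := inertia (K 0)) h.dlt_nonneg fun N => ?_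
  have h1 : ∑ i ∈ Finset.range N, Dlt (u i) (K i) = inertia (K 0) - inertia (K N) := by
    rw [Finset.sum_congr rfl fun i _ => h.dlt i, Finset.sum_range_sub']
  rw [h1]
  linarith [inertia_nonneg (K N)]

/-- The Fourier modes of one order tend to `0`. -/
theorem mode_tendsto_zero1 {m : ℤ} (ha : ¬ Summable fun i =>
      Real.sin (m * (θ (i + 1) - θ i)) ^ 2) (h : Iter R (fun i => dir (θ i)) K) (s : ℝ) :
    Tendsto (fun i => ‖mode s m (K i)‖) atTop (𝓝 0) := by
  rw [← tendsto_add_atTop_iff_nat 1]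
  refine real_lemma1 (x := fun i => ‖mode s m (K (i + 1))‖)
    (c := fun i => |Real.cos (m * (θ (i + 1) - θ i))|)
    (d := fun i => Real.pi * s ^ 2 * Dlt (dir (θ (i + 1))) (K (i + 1))) (fun i => norm_nonneg _)
    (fun i => abs_nonneg _) (fun i => Real.abs_cos_le_one _) (fun i => ?_) ?_ (fun i => ?_) ?_
  · have := h.dlt_nonneg (i + 1)
    have h2 := Real.pi_pos
    positivity
  · exact (((summable_nat_add_iff 1).2 h.summable_dlt).mul_left _)
  · have hch := chords (h.hu (i + 1)) (h.cpt (i + 1)) (h.cvx (i + 1))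
    have hS := isCompact_st (h.hu (i + 1)) (h.cpt (i + 1)) (h.cvx (i + 1))
    have hsym : rho (dir (θ i)) '' K (i + 1) = K (i + 1) := by
      rw [h.step i]
      exact rho_st (h.hu i) (K i)
    have := mode_step (θ := θ i) (θ' := θ (i + 1)) hsym hch (h.cpt (i + 1)) hS s m
    rw [← h.step (i + 1)] at this
    exact this
  · intro hs
    apply ha
    refine hs.congr fun i => ?_
    rw [sq_abs]
    linarith [Real.sin_sq_add_cos_sq ((m : ℝ) * (θ (i + 1) - θ i))]

/-- The Fourier modes tend to `0`. -/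
theorem mode_tendsto_zero (ha : ∀ m : ℕ, 1 ≤ m → ¬ Summable fun i =>
      Real.sin (m * (θ (i + 1) - θ i)) ^ 2) (h : Iter R (fun i => dir (θ i)) K) (s : ℝ) {m : ℤ}
    (hm : m ≠ 0) : Tendsto (fun i => ‖mode s m (K i)‖) atTop (𝓝 0) := by
  refine mode_tendsto_zero1 (fun hs => ?_) h s
  apply ha m.natAbs (Int.natAbs_pos.2 hm)
  refine hs.congr fun i => ?_
  rcases Int.natAbs_eq m with h2 | h2
  · have h3 : (m : ℝ) = ((m.natAbs : ℕ) : ℝ) := by
      rw [← Int.cast_natCast]
      exact_mod_cast h2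
    rw [h3]
  · have h3 : (m : ℝ) = -((m.natAbs : ℕ) : ℝ) := by
      rw [← Int.cast_natCast]
      exact_mod_cast h2
    rw [h3, neg_mul, Real.sin_neg, neg_sq]

theorem forward (ha : ∀ m : ℕ, 1 ≤ m → ¬ Summable fun i =>
      Real.sin (m * (θ (i + 1) - θ i)) ^ 2) (h : Iter R (fun i => dir (θ i)) K) :
    ∃ r : ℝ, 0 < r ∧ Tendsto (fun i => hausdorffDist (K i) (closedBall 0 r)) atTop (𝓝 0) := by
  obtain ⟨r, hr, hrv⟩ := exists_radius (h.cpt 0)
  have hr0 : 0 < r := by
    rcases hr.eq_or_lt with h0 | h0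
    · exfalso
      apply h.pos
      rw [← hrv, ← h0, closedBall_zero]
      simp
    · exact h0
  refine ⟨r, hr0, ?_⟩
  refine tendsto_of_subseq_tendsto fun ns hns => ?_
  obtain ⟨L, φ, hφ, hL, hLc, hLn, hLR, hlim⟩ := blaschke (fun i => K (ns i)) (fun i => h.cpt _)
    (fun i => h.cvx _) (fun i => h.ne _) (fun i => h.sub _)
  have hvL : volume L = volume (K 0) := by
    have h1 := tendsto_volume (fun i => h.ne (ns (φ i))) hLn (fun i => h.cpt _) hL
      (fun i => h.cvx _) hLc (fun i => h.sub _) hlim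
    have h2 : (fun i => volume (K (ns (φ i)))) = fun _ => volume (K 0) :=
      funext fun i => h.vol _
    rw [h2] at h1
    exact tendsto_nhds_unique h1 tendsto_const_nhds
  have hL0 : volume L ≠ 0 := by rw [hvL]; exact h.pos
  have hmode : ∀ (s : ℝ) (m : ℤ), m ≠ 0 → mode s m L = 0 := by
    intro s m hm
    have h1 := tendsto_mode (fun i => h.ne (ns (φ i))) hLn (fun i => h.cpt _) hL
      (fun i => h.cvx _) hLc (fun i => h.sub _) hlim s m
    have h2 : Tendsto (fun i => mode s m (K i)) atTop (𝓝 0) :=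
      tendsto_zero_iff_norm_tendsto_zero.2 (mode_tendsto_zero ha h s hm)
    exact tendsto_nhds_unique h1 (h2.comp (hns.comp hφ.tendsto_atTop))
  have hinv := image_of_radial hL hLc hL0 fun ξ η hn => Th_radial hL hmode hn
  obtain ⟨r', hr', hLr⟩ := ball_of_invariant hL hLc (interior_nonempty_of_volume hLc hL0) hinv
  have hrr : r' = r := radius_unique (n := 2) (by norm_num) hr'.le hr (by rw [← hLr, hvL, hrv])
  subst hrr
  subst hLr
  exact ⟨φ, hlim⟩

end

end MP_02d86d_gt
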