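import Pool.Agent.Work.MP_02d86d_gt.Plane.Defs2

/-! Moments of ellipses. -/

set_option autoImplicit false

namespace MP_02d86d_gt

open MeasureTheory Set Filter Topology Metric



/-- Mixed moments of the unit disc. -/
noncomputable def discM (k l : ℕ) : ℂ :=
  ∫ x in closedBall (0 : EuclideanSpace ℝ (Fin 2)) 1, zc x ^ k * (starRingEnd ℂ) (zc x) ^ l

theorem zc_add (x y : EuclideanSpace ℝ (Fin 2)) : zc (x + y) = zc x + zc y := by
  apply Complex.ext <;> simp [zc]

theorem zc_smul (c : ℝ) (x : EuclideanSpace ℝ (Fin 2)) : zc (c • x) = c * zc x := by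
  apply Complex.ext <;> simp [zc]

theorem zc_injective : Function.Injective zc := by
  intro x y h
  have h0 := congrArg Complex.re h
  have h1 := congrArg Complex.im h
  simp only [zc] at h0 h1
  ext i
  fin_cases i
  · exact h0
  · exact h1

theorem integrableOn_disc {f : EuclideanSpace ℝ (Fin 2) → ℂ} (hf : Continuous f) (c : EuclideanSpace ℝ (Fin 2)) (r : ℝ) :
    IntegrableOn f (closedBall c r) :=
  hf.continuousOn.integrableOn_compact (isCompact_closedBall c r)

theorem rho_image_ball (u : EuclideanSpace ℝ (Fin 2)) (r : ℝ) :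
    rho u ⁻¹' closedBall (0 : EuclideanSpace ℝ (Fin 2)) r = closedBall 0 r := by
  rw [LinearIsometryEquiv.preimage_closedBall]
  simp

theorem discM_swap (θ : ℝ) (k l : ℕ) :
    discM k l = (-1) ^ (k + l) * Complex.exp (2 * θ * (k - l) * Complex.I) * discM l k := by
  have h1 : discM k l = ∫ x in closedBall (0 : EuclideanSpace ℝ (Fin 2)) 1,
      zc (rho (dir θ) x) ^ k * (starRingEnd ℂ) (zc (rho (dir θ) x)) ^ l := by
    have hmp := (rho (dir θ)).measurePreserving
    have := hmp.setIntegral_preimage_emb (rho (dir θ)).toHomeomorph.measurableEmbedding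
      (fun x => zc x ^ k * (starRingEnd ℂ) (zc x) ^ l) (closedBall (0 : EuclideanSpace ℝ (Fin 2)) 1)
    rw [rho_image_ball] at this
    exact this.symm
  rw [h1]
  unfold discM
  rw [← integral_const_mul]
  apply setIntegral_congr_fun isClosed_closedBall.measurableSet
  intro x _
  simp only
  rw [zc_rho]
  have hconj : (starRingEnd ℂ) (-(Complex.exp (2 * θ * Complex.I) * (starRingEnd ℂ) (zc x))) =
      -(Complex.exp (-(2 * θ * Complex.I)) * zc x) := by
    rw [map_neg, map_mul, Complex.conj_conj, ← Complex.exp_conj]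
    congr 3
    rw [map_mul, map_mul, Complex.conj_I, Complex.conj_ofReal, Complex.conj_ofNat]
    ring
  rw [hconj]
  have he : Complex.exp (2 * θ * (k - l) * Complex.I) =
      Complex.exp (2 * θ * Complex.I) ^ k * Complex.exp (-(2 * θ * Complex.I)) ^ l := by
    rw [← Complex.exp_nat_mul, ← Complex.exp_nat_mul, ← Complex.exp_add]
    congr 1
    ring
  rw [he, neg_pow, neg_pow (Complex.exp (-(2 * θ * Complex.I)) * zc x), mul_pow, mul_pow, pow_add]
  ring

theorem discM_eq_zero {k l : ℕ} (h : k ≠ l) : discM k l = 0 := by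
  have h0 := discM_swap 0 k l
  have h1 := discM_swap (Real.pi / (2 * ((k : ℝ) - l))) k l
  have hkl : (k : ℝ) - l ≠ 0 := sub_ne_zero.2 (by exact_mod_cast h)
  have hkl' : (k : ℂ) - l ≠ 0 := sub_ne_zero.2 (by exact_mod_cast h)
  have e1 : Complex.exp (2 * ((Real.pi / (2 * ((k : ℝ) - l)) : ℝ) : ℂ) * (k - l) * Complex.I) = -1 := by
    rw [← Complex.exp_pi_mul_I]
    congr 1
    push_cast
    field_simp
  rw [e1] at h1
  simp only [Complex.ofReal_zero, mul_zero, zero_mul, Complex.exp_zero, mul_one] at h0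
  have h2 : discM k l = - discM k l := by
    nth_rewrite 1 [h1]
    rw [h0]
    ring
  have h3 : (2 : ℂ) * discM k l = 0 := by linear_combination h2
  simpa using h3

theorem discM_diag (m : ℕ) :
    discM m m = ((∫ x in closedBall (0 : EuclideanSpace ℝ (Fin 2)) 1, ‖x‖ ^ (2 * m) : ℝ) : ℂ) := by
  unfold discM
  rw [← integral_complex_ofReal]
  congr 1
  funext x
  rw [← mul_pow, Complex.mul_conj, Complex.normSq_eq_norm_sq, norm_zc]
  push_cast
  rw [pow_mul]

theorem norm_discM_le (m : ℕ) (hm : 1 ≤ m) : ‖discM m m‖ ≤ ‖discM 1 1‖ := by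
  rw [discM_diag, discM_diag, Complex.norm_real, Complex.norm_real, Real.norm_of_nonneg,
    Real.norm_of_nonneg]
  · apply setIntegral_mono_on
    · exact (by fun_prop : Continuous fun x : EuclideanSpace ℝ (Fin 2) => ‖x‖ ^ (2 * m)).continuousOn.integrableOn_compact
        (isCompact_closedBall _ _)
    · exact (by fun_prop : Continuous fun x : EuclideanSpace ℝ (Fin 2) => ‖x‖ ^ (2 * 1)).continuousOn.integrableOn_compact
        (isCompact_closedBall _ _)
    · exact isClosed_closedBall.measurableSet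
    · intro x hx
      have hx' : ‖x‖ ≤ 1 := by simpa using hx
      exact pow_le_pow_of_le_one (norm_nonneg _) hx' (by omega)
  · positivity
  · positivity

theorem discM_one_ne : discM 1 1 ≠ 0 := by
  rw [discM_diag]
  have h : 0 < ∫ x in closedBall (0 : EuclideanSpace ℝ (Fin 2)) 1, ‖x‖ ^ (2 * 1) := by
    rw [setIntegral_pos_iff_support_of_nonneg_ae]
    · have hsub : ball (0 : EuclideanSpace ℝ (Fin 2)) 1 \ {0} ⊆
          Function.support (fun x : EuclideanSpace ℝ (Fin 2) => ‖x‖ ^ (2 * 1)) ∩ closedBall 0 1 := by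
        intro x hx
        refine ⟨?_, ball_subset_closedBall hx.1⟩
        simp only [Function.mem_support]
        exact pow_ne_zero _ (norm_ne_zero_iff.2 hx.2)
      refine lt_of_lt_of_le ?_ (measure_mono hsub)
      rw [measure_sdiff_null (measure_singleton _)]
      exact measure_ball_pos _ _ one_pos
    · exact Eventually.of_forall fun x => by positivity
    · exact (by fun_prop : Continuous fun x : EuclideanSpace ℝ (Fin 2) => ‖x‖ ^ (2 * 1)).continuousOn.integrableOn_compact
        (isCompact_closedBall _ _)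
  exact_mod_cast h.ne'

/-- `∫ (α z + β z̄)^M` over the unit disc. -/
theorem disc_binom (α β : ℂ) (M : ℕ) :
    ∫ x in closedBall (0 : EuclideanSpace ℝ (Fin 2)) 1, (α * zc x + β * (starRingEnd ℂ) (zc x)) ^ M =
      ∑ k ∈ Finset.range (M + 1), α ^ k * β ^ (M - k) * (M.choose k) * discM k (M - k) := by
  have hc := continuous_zc
  unfold discM
  have h1 : ∀ x : EuclideanSpace ℝ (Fin 2), (α * zc x + β * (starRingEnd ℂ) (zc x)) ^ M =
      ∑ k ∈ Finset.range (M + 1), α ^ k * β ^ (M - k) * (M.choose k) *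
        (zc x ^ k * (starRingEnd ℂ) (zc x) ^ (M - k)) := by
    intro x
    rw [add_pow]
    apply Finset.sum_congr rfl
    intro k _
    rw [mul_pow, mul_pow]
    ring
  simp_rw [h1]
  rw [integral_finsetSum]
  · apply Finset.sum_congr rfl
    intro k _
    rw [integral_const_mul]
  · intro k _
    apply integrableOn_disc
    exact continuous_const.mul ((hc.pow _).mul ((Complex.continuous_conj.comp hc).pow _))

theorem disc_binom_even (α β : ℂ) (m : ℕ) :
    ∫ x in closedBall (0 : EuclideanSpace ℝ (Fin 2)) 1, (α * zc x + β * (starRingEnd ℂ) (zc x)) ^ (2 * m) =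
      (α * β) ^ m * ((2 * m).choose m) * discM m m := by
  rw [disc_binom, Finset.sum_eq_single m]
  · have : 2 * m - m = m := by omega
    rw [this, mul_pow]
  · intro k hk hne
    rw [discM_eq_zero (by rw [Finset.mem_range] at hk; omega), mul_zero]
  · intro h
    exact absurd (Finset.mem_range.2 (by omega)) h

theorem disc_binom_odd (α β : ℂ) {M : ℕ} (hM : Odd M) :
    ∫ x in closedBall (0 : EuclideanSpace ℝ (Fin 2)) 1, (α * zc x + β * (starRingEnd ℂ) (zc x)) ^ M = 0 := by
  rw [disc_binom]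
  apply Finset.sum_eq_zero
  intro k hk
  rw [Finset.mem_range] at hk
  obtain ⟨j, hj⟩ := hM
  rw [discM_eq_zero (by omega), mul_zero]

theorem affine_apply (A : AffineEquiv ℝ (EuclideanSpace ℝ (Fin 2)) (EuclideanSpace ℝ (Fin 2))) (x : EuclideanSpace ℝ (Fin 2)) : A x = A.linear x + A 0 := by
  have h := A.map_vadd 0 x
  rwa [vadd_eq_add, vadd_eq_add, add_zero] at h

theorem affine_moment (A : AffineEquiv ℝ (EuclideanSpace ℝ (Fin 2)) (EuclideanSpace ℝ (Fin 2))) (g : EuclideanSpace ℝ (Fin 2) → ℂ) :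
    ∫ x in A '' closedBall (0 : EuclideanSpace ℝ (Fin 2)) 1, g x =
      ((|(LinearMap.toContinuousLinearMap (A.linear : EuclideanSpace ℝ (Fin 2) →ₗ[ℝ] EuclideanSpace ℝ (Fin 2))).det| : ℝ) : ℂ) *
        ∫ x in closedBall (0 : EuclideanSpace ℝ (Fin 2)) 1, g (A x) := by
  have hd : ∀ x ∈ closedBall (0 : EuclideanSpace ℝ (Fin 2)) 1, HasFDerivWithinAt (A : EuclideanSpace ℝ (Fin 2) → EuclideanSpace ℝ (Fin 2))
      (LinearMap.toContinuousLinearMap (A.linear : EuclideanSpace ℝ (Fin 2) →ₗ[ℝ] EuclideanSpace ℝ (Fin 2))) (closedBall (0 : EuclideanSpace ℝ (Fin 2)) 1) x := by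
    intro x _
    have h1 : (A : EuclideanSpace ℝ (Fin 2) → EuclideanSpace ℝ (Fin 2)) = fun x =>
        (LinearMap.toContinuousLinearMap (A.linear : EuclideanSpace ℝ (Fin 2) →ₗ[ℝ] EuclideanSpace ℝ (Fin 2))) x + A 0 := by
      funext x
      rw [affine_apply A x]
      rfl
    rw [h1]
    exact ((ContinuousLinearMap.hasFDerivAt _).add_const _).hasFDerivWithinAt
  rw [integral_image_eq_integral_abs_det_fderiv_smul volume isClosed_closedBall.measurableSet hd
    A.injective.injOn g, ← integral_const_mul]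
  simp only [Complex.real_smul]

/-- The complex form of a real linear map. -/
theorem linear_complex (L : EuclideanSpace ℝ (Fin 2) →ₗ[ℝ] EuclideanSpace ℝ (Fin 2)) (x : EuclideanSpace ℝ (Fin 2)) :
    zc (L x) = ((zc (L (EuclideanSpace.single 0 1)) -
        Complex.I * zc (L (EuclideanSpace.single 1 1))) / 2) * zc x +
      ((zc (L (EuclideanSpace.single 0 1)) +
        Complex.I * zc (L (EuclideanSpace.single 1 1))) / 2) * (starRingEnd ℂ) (zc x) := by
  have hx : x = x 0 • EuclideanSpace.single 0 (1 : ℝ) + x 1 • EuclideanSpace.single 1 (1 : ℝ) := by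
    ext i
    fin_cases i <;> simp
  have h1 : zc (L x) = (x 0 : ℂ) * zc (L (EuclideanSpace.single 0 1)) +
      (x 1 : ℂ) * zc (L (EuclideanSpace.single 1 1)) := by
    conv_lhs => rw [hx]
    rw [map_add, map_smul, map_smul, zc_add, zc_smul, zc_smul]
  have h2 : zc x = (x 0 : ℂ) + (x 1 : ℂ) * Complex.I := by
    apply Complex.ext <;> simp [zc]
  have h3 : (starRingEnd ℂ) (zc x) = (x 0 : ℂ) - (x 1 : ℂ) * Complex.I := by
    rw [h2]
    simp [sub_eq_add_neg]
  rw [h1, h3, h2]
  linear_combination ((x 1 : ℂ) * zc (L (EuclideanSpace.single 1 1))) * Complex.I_sq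

theorem ellipse_bound {M : ℕ} (hM : 3 ≤ M) (R : ℝ) : ∃ C : ℝ, 0 ≤ C ∧
    ∀ A : AffineEquiv ℝ (EuclideanSpace ℝ (Fin 2)) (EuclideanSpace ℝ (Fin 2)),
      A '' closedBall 0 1 ⊆ closedBall 0 R → lam 1 (A '' closedBall 0 1) = 0 →
      ‖lam M (A '' closedBall 0 1)‖ ≤ C * ‖lam 2 (A '' closedBall 0 1)‖ := by
  refine ⟨((M.choose (M / 2) : ℕ) : ℝ) * (R ^ 2) ^ (M / 2 - 1), by positivity, ?_⟩
  intro A hA h1
  set D : ℝ := |(LinearMap.toContinuousLinearMap (A.linear : EuclideanSpace ℝ (Fin 2) →ₗ[ℝ] EuclideanSpace ℝ (Fin 2))).det| with hD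
  have hD0 : D ≠ 0 := by
    rw [hD, abs_ne_zero]
    have h2 : (LinearMap.toContinuousLinearMap (A.linear : EuclideanSpace ℝ (Fin 2) →ₗ[ℝ] EuclideanSpace ℝ (Fin 2))).det =
        LinearMap.det (A.linear : EuclideanSpace ℝ (Fin 2) →ₗ[ℝ] EuclideanSpace ℝ (Fin 2)) := by
      rw [ContinuousLinearMap.det]
      rfl
    rw [h2]
    exact (LinearEquiv.isUnit_det' A.linear).ne_zero
  set α : ℂ := (zc (A.linear (EuclideanSpace.single 0 1)) -
        Complex.I * zc (A.linear (EuclideanSpace.single 1 1))) / 2 with hα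
  set β : ℂ := (zc (A.linear (EuclideanSpace.single 0 1)) +
        Complex.I * zc (A.linear (EuclideanSpace.single 1 1))) / 2 with hβ
  obtain ⟨c, hc0⟩ : ∃ c, c = zc (A 0) := ⟨_, rfl⟩
  have hlin : ∀ x : EuclideanSpace ℝ (Fin 2), zc (A x) = (α * zc x + β * (starRingEnd ℂ) (zc x)) + c := by
    intro x
    rw [affine_apply A x, zc_add, hc0]
    congr 1
    exact linear_complex (A.linear : EuclideanSpace ℝ (Fin 2) →ₗ[ℝ] EuclideanSpace ℝ (Fin 2)) x
  -- the centre
  have hA0 : c = 0 := by
    have h2 : lam 1 (A '' closedBall 0 1) = (D : ℂ) * (((volume.real (closedBall (0 : EuclideanSpace ℝ (Fin 2)) 1) : ℝ) : ℂ) * c) := by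
      unfold lam
      rw [affine_moment A]
      congr 1
      simp only [pow_one]
      simp_rw [hlin]
      have hc := continuous_zc
      rw [integral_add]
      · have h3 := disc_binom_odd α β (M := 1) (by decide)
        simp only [pow_one] at h3
        rw [h3, zero_add, setIntegral_const, Complex.real_smul]
      · apply integrableOn_disc
        exact (continuous_const.mul hc).add (continuous_const.mul (Complex.continuous_conj.comp hc))
      · apply integrableOn_disc
        exact continuous_const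
    rw [h1] at h2
    have hv : volume.real (closedBall (0 : EuclideanSpace ℝ (Fin 2)) 1) ≠ 0 := by
      rw [Measure.real, ENNReal.toReal_ne_zero]
      exact ⟨(measure_closedBall_pos _ _ one_pos).ne', (isCompact_closedBall _ _).measure_lt_top.ne⟩
    have h3 := h2.symm
    rw [mul_eq_zero, mul_eq_zero] at h3
    rcases h3 with h3 | h3 | h3
    · exact absurd (by exact_mod_cast h3) hD0
    · exact absurd (by exact_mod_cast h3) hv
    · exact h3
  have hA0' : A 0 = 0 := by
    apply zc_injective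
    rw [← hc0, hA0]
    apply Complex.ext <;> simp [zc]
  -- moments
  have hmom : ∀ N : ℕ, lam N (A '' closedBall 0 1) =
      (D : ℂ) * ∫ x in closedBall (0 : EuclideanSpace ℝ (Fin 2)) 1, (α * zc x + β * (starRingEnd ℂ) (zc x)) ^ N := by
    intro N
    unfold lam
    rw [affine_moment A]
    congr 1
    simp_rw [hlin, hA0, add_zero]
  rcases Nat.even_or_odd M with ⟨m, hm⟩ | hodd
  · have hm' : M = 2 * m := by omega
    have hm2 : M / 2 = m := by omega
    have hnb : ∀ i : Fin 2, ‖zc (A.linear (EuclideanSpace.single i 1))‖ ≤ R := by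
      intro i
      rw [norm_zc]
      have h4 : A (EuclideanSpace.single i 1) ∈ closedBall (0 : EuclideanSpace ℝ (Fin 2)) R := by
        apply hA
        refine ⟨_, ?_, rfl⟩
        simp
      rw [affine_apply, hA0', add_zero] at h4
      simpa using h4
    have hR : 0 ≤ R := (norm_nonneg _).trans (hnb 0)
    have hαR : ‖α‖ ≤ R := by
      rw [hα, norm_div]
      have := norm_sub_le (zc (A.linear (EuclideanSpace.single 0 1)))
        (Complex.I * zc (A.linear (EuclideanSpace.single 1 1)))
      rw [norm_mul, Complex.norm_I, one_mul] at this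
      have h0 := hnb 0
      have h1' := hnb 1
      rw [Complex.norm_ofNat]
      linarith
    have hβR : ‖β‖ ≤ R := by
      rw [hβ, norm_div]
      have := norm_add_le (zc (A.linear (EuclideanSpace.single 0 1)))
        (Complex.I * zc (A.linear (EuclideanSpace.single 1 1)))
      rw [norm_mul, Complex.norm_I, one_mul] at this
      have h0 := hnb 0
      have h1' := hnb 1
      rw [Complex.norm_ofNat]
      linarith
    have hab : ‖α * β‖ ≤ R ^ 2 := by
      rw [norm_mul, sq]
      exact mul_le_mul hαR hβR (norm_nonneg _) hR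
    have e1 := hmom (2 * m)
    have e2 := hmom (2 * 1)
    rw [disc_binom_even] at e1 e2
    rw [← hm'] at e1
    rw [hm2, e1, e2]
    have hmm : (M.choose m : ℕ) = (2 * m).choose m := by rw [hm']
    rw [norm_mul, norm_mul, norm_mul, norm_mul, norm_mul, norm_mul, norm_pow, norm_pow, hmm]
    have hch : ‖((2 * 1).choose 1 : ℂ)‖ = 2 := by norm_num [Nat.choose]
    rw [hch, pow_one]
    have hcm : ‖(((2 * m).choose m : ℕ) : ℂ)‖ = ((2 * m).choose m : ℝ) := by
      rw [Complex.norm_natCast]
    rw [hcm]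
    have hsp : ‖α * β‖ ^ m ≤ (R ^ 2) ^ (m - 1) * ‖α * β‖ := by
      have : m = (m - 1) + 1 := by omega
      conv_lhs => rw [this, pow_succ]
      gcongr
    have hJ := norm_discM_le m (by omega)
    have hDn : 0 ≤ ‖(D : ℂ)‖ := norm_nonneg _
    calc ‖(D : ℂ)‖ * (‖α * β‖ ^ m * ((2 * m).choose m : ℝ) * ‖discM m m‖)
        ≤ ‖(D : ℂ)‖ * (((R ^ 2) ^ (m - 1) * ‖α * β‖) * ((2 * m).choose m : ℝ) * ‖discM 1 1‖) := by
          gcongr
      _ ≤ ((2 * m).choose m : ℝ) * (R ^ 2) ^ (m - 1) * (‖(D : ℂ)‖ * (‖α * β‖ * 2 * ‖discM 1 1‖)) := by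
          have h5 : 0 ≤ ((2 * m).choose m : ℝ) * (R ^ 2) ^ (m - 1) *
              (‖(D : ℂ)‖ * (‖α * β‖ * ‖discM 1 1‖)) := by positivity
          linarith
  · rw [hmom M, disc_binom_odd α β hodd, mul_zero, norm_zero]
    positivity

end MP_02d86d_gt
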