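import Pool.Agent.Work.MP_02d86d_gt.Plane.Defs2

/-! The linear isometries of the plane in the complex coordinate. -/

set_option autoImplicit false

namespace MP_02d86d_gt

open MeasureTheory Set Filter Topology Metric

theorem zc_eq (x : EuclideanSpace ℝ (Fin 2)) :
    zc x = Complex.orthonormalBasisOneI.repr.symm x := by
  rw [Complex.orthonormalBasisOneI_repr_symm_apply]
  apply Complex.ext <;> simp [zc]

/-- A linear isometry of the plane is a rotation or a reflection followed by a rotation. -/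
theorem zc_isom (ψ : EuclideanSpace ℝ (Fin 2) ≃ₗᵢ[ℝ] EuclideanSpace ℝ (Fin 2)) :
    ∃ a : ℂ, ‖a‖ = 1 ∧ ((∀ x, zc (ψ x) = a * zc x) ∨
      ∀ x, zc (ψ x) = a * (starRingEnd ℂ) (zc x)) := by
  have hf : ∀ x, ((Complex.orthonormalBasisOneI.repr.trans ψ).trans
      Complex.orthonormalBasisOneI.repr.symm) (zc x) = zc (ψ x) := by
    intro x
    rw [zc_eq, zc_eq]
    simp only [LinearIsometryEquiv.trans_apply, LinearIsometryEquiv.apply_symm_apply]
  obtain ⟨a, ha⟩ := linear_isometry_complex ((Complex.orthonormalBasisOneI.repr.trans ψ).trans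
      Complex.orthonormalBasisOneI.repr.symm)
  refine ⟨a, Circle.norm_coe a, ha.imp (fun h x => ?_) (fun h x => ?_)⟩
  · rw [← hf, h, rotation_apply]
  · rw [← hf, h, LinearIsometryEquiv.trans_apply, rotation_apply, Complex.conjLIE_apply]

/-- The integral over the image of a linear isometry. -/
theorem integral_isom {n : ℕ} (ψ : EuclideanSpace ℝ (Fin n) ≃ₗᵢ[ℝ] EuclideanSpace ℝ (Fin n))
    (K : Set (EuclideanSpace ℝ (Fin n))) (g : EuclideanSpace ℝ (Fin n) → ℂ) :
    ∫ x in ψ '' K, g x = ∫ x in K, g (ψ x) :=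
  ψ.measurePreserving.setIntegral_image_emb ψ.toHomeomorph.measurableEmbedding g K

/-- The absolute values of the complex moments are invariant under linear isometries. -/
theorem norm_lam_isom (ψ : EuclideanSpace ℝ (Fin 2) ≃ₗᵢ[ℝ] EuclideanSpace ℝ (Fin 2)) (M : ℕ)
    {K : Set (EuclideanSpace ℝ (Fin 2))} (hK : IsCompact K) :
    ‖lam M (ψ '' K)‖ = ‖lam M K‖ := by
  unfold lam
  rw [integral_isom]
  obtain ⟨a, ha, h | h⟩ := zc_isom ψ
  · have e : (fun x => zc (ψ x) ^ M) = fun x => a ^ M * zc x ^ M := by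
      funext x
      rw [h, mul_pow]
    rw [e, integral_const_mul, norm_mul, norm_pow, ha, one_pow, one_mul]
  · have e : (fun x => zc (ψ x) ^ M) = fun x => a ^ M * (starRingEnd ℂ) (zc x ^ M) := by
      funext x
      rw [h, mul_pow, map_pow]
    rw [e, integral_const_mul, norm_mul, norm_pow, ha, one_pow, one_mul, integral_conj,
      Complex.norm_conj]

end MP_02d86d_gt
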