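import Pool.Agent.Work.MP_02d86d_gt.Plane.Moment

/-! The complex moments of a mirror image and of a symmetral. -/

set_option autoImplicit false

namespace MP_02d86d_gt

open MeasureTheory Set Filter Topology Metric

theorem lam_rho (M : ℕ) (θ : ℝ) (K : Set (EuclideanSpace ℝ (Fin 2))) (hK : IsCompact K) :
    lam M (rho (dir θ) '' K) =
      (-Complex.exp (2 * θ * Complex.I)) ^ M * (starRingEnd ℂ) (lam M K) := by
  unfold lam
  have h1 := (rho (dir θ)).measurePreserving
  rw [h1.setIntegral_image_emb (rho (dir θ)).toMeasurableEquiv.measurableEmbedding]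
  have h2 : ∀ x, zc (rho (dir θ) x) ^ M =
      (-Complex.exp (2 * θ * Complex.I)) ^ M * (starRingEnd ℂ) (zc x ^ M) := by
    intro x
    rw [zc_rho, map_pow, ← mul_pow, neg_mul]
  have h3 : ∫ x in K, zc (rho (dir θ) x) ^ M =
      ∫ x in K, (-Complex.exp (2 * θ * Complex.I)) ^ M * (starRingEnd ℂ) (zc x ^ M) :=
    integral_congr_ae (Eventually.of_forall fun x => h2 x)
  have h4 : ∫ x in K, (starRingEnd ℂ) (zc x ^ M) = (starRingEnd ℂ) (∫ x in K, zc x ^ M) :=
    integral_conj
  have h5 : ∫ x in K, (-Complex.exp (2 * θ * Complex.I)) ^ M * (starRingEnd ℂ) (zc x ^ M) =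
      (-Complex.exp (2 * θ * Complex.I)) ^ M * ∫ x in K, (starRingEnd ℂ) (zc x ^ M) :=
    integral_const_mul _ _
  rw [← h4, ← h5, ← h3]

theorem lam_step (M : ℕ) (R : ℝ) : ∃ C : ℝ, 0 ≤ C ∧
    ∀ (θ θ' : ℝ) (K : Set (EuclideanSpace ℝ (Fin 2))), rho (dir θ) '' K = K → Convex ℝ K →
      IsCompact K → K ⊆ closedBall 0 R →
      |Real.cos (M * (θ' - θ))| * ‖lam M K‖ - C * Dlt (dir θ') K ≤
        ‖lam M (st (dir θ') K)‖ := by
  obtain ⟨C, hC0, -, hC⟩ := lam_est M R
  refine ⟨C, hC0, fun θ θ' K hsym hc hK hR => ?_⟩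
  have h1 := hC (dir θ') K (norm_dir θ') (chords (norm_dir θ') hK hc) hK
    (isCompact_st (norm_dir θ') hK hc) hR (st_subset (norm_dir θ') hK hc hR)
  have h2 : lam M K = (-Complex.exp (2 * θ * Complex.I)) ^ M * (starRingEnd ℂ) (lam M K) := by
    have := lam_rho M θ K hK
    rwa [hsym] at this
  have h3 : lam M (rho (dir θ') '' K) = Complex.exp (2 * (M * (θ' - θ)) * Complex.I) * lam M K := by
    rw [lam_rho M θ' K hK]
    conv_rhs => rw [h2]
    rw [← mul_assoc]
    congr 1
    rw [neg_pow, neg_pow (Complex.exp (2 * θ * Complex.I)), ← Complex.exp_nat_mul,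
      ← Complex.exp_nat_mul]
    have e5 : Complex.exp (M * (2 * θ' * Complex.I)) =
        Complex.exp (2 * (M * (θ' - θ)) * Complex.I) * Complex.exp (M * (2 * θ * Complex.I)) := by
      rw [← Complex.exp_add]
      congr 1
      ring
    rw [e5]
    ring
  have h4 : ‖(lam M K + lam M (rho (dir θ') '' K)) / 2‖ =
      |Real.cos (M * (θ' - θ))| * ‖lam M K‖ := by
    have e1 : (lam M K + lam M (rho (dir θ') '' K)) / 2 =
        Complex.exp (M * (θ' - θ) * Complex.I) * Complex.cos (M * (θ' - θ)) * lam M K := by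
      rw [h3, Complex.cos]
      have e2 : Complex.exp (M * (θ' - θ) * Complex.I) *
          ((Complex.exp (M * (θ' - θ) * Complex.I) +
            Complex.exp (-(M * (θ' - θ)) * Complex.I)) / 2) =
          (Complex.exp (2 * (M * (θ' - θ)) * Complex.I) + 1) / 2 := by
        rw [mul_div_assoc', mul_add, ← Complex.exp_add, ← Complex.exp_add]
        congr 2
        · congr 1
          ring
        · rw [neg_mul, add_neg_cancel, Complex.exp_zero]
      rw [e2]
      ring
    rw [e1, norm_mul, norm_mul]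
    have e3 : ‖Complex.exp (M * (θ' - θ) * Complex.I)‖ = 1 := by
      have : (M * (θ' - θ) * Complex.I : ℂ) = ((M * (θ' - θ) : ℝ) : ℂ) * Complex.I := by
        push_cast; ring
      rw [this, Complex.norm_exp_ofReal_mul_I]
    have e4 : ‖Complex.cos (M * (θ' - θ))‖ = |Real.cos (M * (θ' - θ))| := by
      have : (M * (θ' - θ) : ℂ) = ((M * (θ' - θ) : ℝ) : ℂ) := by push_cast; ring
      rw [this, ← Complex.ofReal_cos, Complex.norm_real, Real.norm_eq_abs]
    rw [e3, e4, one_mul]
  have h5 : ‖(lam M K + lam M (rho (dir θ') '' K)) / 2‖ ≤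
      ‖lam M (st (dir θ') K)‖ + C * Dlt (dir θ') K := by
    calc ‖(lam M K + lam M (rho (dir θ') '' K)) / 2‖
        = ‖lam M (st (dir θ') K) -
            (lam M (st (dir θ') K) - (lam M K + lam M (rho (dir θ') '' K)) / 2)‖ := by
          congr 1; ring
      _ ≤ _ := norm_sub_le _ _
      _ ≤ _ := by linarith
  rw [h4] at h5
  linarith

end MP_02d86d_gt
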