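import Pool.Agent.Work.MP_02d86d_gt.B.LimBody
import Pool.Agent.Work.MP_02d86d_gt.Plane.Sym
import Pool.Agent.Work.MP_02d86d_gt.Plane.Inertia
import Pool.Agent.Work.MP_02d86d_gt.Plane.Cont
import Pool.Agent.Work.MP_02d86d_gt.Plane.Bump
import Pool.Agent.Work.MP_02d86d_gt.Plane.Lam
import Pool.Agent.Work.MP_02d86d_gt.Plane.Ellipse
import Pool.Agent.Work.MP_02d86d_gt.Plane.Real12
import Pool.Agent.Work.MP_02d86d_gt.Plane.Isom

/-! If the sum of `sin (m δ_i)^2` converges for some `m ≥ 3` and no factor `cos (m δ_i)` is zero,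
then already from the start of the sequence some limit is not an ellipsoid. -/

set_option autoImplicit false

namespace MP_02d86d_gt

open MeasureTheory Set Filter Topology Metric

/-- All products of numbers without zero factors are bounded below. -/
theorem exists_prod_ge_all {c : ℕ → ℝ} (hc : ∀ i, |c i| ≤ 1) (hne : ∀ i, c i ≠ 0)
    (hs : Summable fun i => 1 - c i ^ 2) :
    ∃ P : ℝ, 0 < P ∧ ∀ m, P ≤ ∏ i ∈ Finset.range m, |c i| := by
  obtain ⟨N, d, hd, h⟩ := exists_prod_ge hc hs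
  have hpos : ∀ m, 0 < ∏ i ∈ Finset.range m, |c i| := fun m =>
    Finset.prod_pos fun i _ => abs_pos.2 (hne i)
  have hd1 : d ≤ 1 := by simpa using h N le_rfl 0
  have hanti : ∀ k m, ∏ i ∈ Finset.range (m + k), |c i| ≤ ∏ i ∈ Finset.range m, |c i| := by
    intro k
    induction k with
    | zero => intro m; simp
    | succ k ih =>
      intro m
      rw [← add_assoc, Finset.prod_range_succ]
      have h1 := ih m
      have h2 := hc (m + k)
      have h3 := (hpos (m + k)).le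
      nlinarith [abs_nonneg (c (m + k))]
  refine ⟨(∏ i ∈ Finset.range N, |c i|) * d, mul_pos (hpos N) hd, fun m => ?_⟩
  rcases le_or_gt N m with hm | hm
  · obtain ⟨k, rfl⟩ := Nat.exists_eq_add_of_le hm
    rw [Finset.prod_range_add]
    exact mul_le_mul_of_nonneg_left (h N le_rfl k) (hpos N).le
  · obtain ⟨k, rfl⟩ := Nat.exists_eq_add_of_le hm.le
    have h1 := hanti k m
    have h2 := hpos (m + k)
    nlinarith

theorem lam_one_st {R : ℝ} {u : EuclideanSpace ℝ (Fin 2)} (hu : ‖u‖ = 1)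
    {K : Set (EuclideanSpace ℝ (Fin 2))} (hc : Convex ℝ K) (hK : IsCompact K)
    (hR : K ⊆ closedBall 0 R) (h0 : lam 1 K = 0) : lam 1 (st u K) = 0 := by
  obtain ⟨C, -, hC1, hC⟩ := lam_est 1 R
  have h1 := hC u K hu (chords hu hK hc) hK (isCompact_st hu hK hc) hR (st_subset hu hK hc hR)
  have h2 : lam 1 (rho u '' K) = 0 := by
    rw [← norm_eq_zero, norm_lam_isom _ _ hK, h0, norm_zero]
  rw [hC1 le_rfl, h0, h2] at h1
  simpa using h1

theorem lam_two_st {R : ℝ} : ∃ C : ℝ, 0 ≤ C ∧ ∀ (u : EuclideanSpace ℝ (Fin 2))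
    (K : Set (EuclideanSpace ℝ (Fin 2))), ‖u‖ = 1 → Convex ℝ K → IsCompact K →
    K ⊆ closedBall 0 R → ‖lam 2 (st u K)‖ ≤ ‖lam 2 K‖ + C * Dlt u K := by
  obtain ⟨C, hC0, -, hC⟩ := lam_est 2 R
  refine ⟨C, hC0, fun u K hu hc hK hR => ?_⟩
  have h1 := hC u K hu (chords hu hK hc) hK (isCompact_st hu hK hc) hR (st_subset hu hK hc hR)
  have h2 : ‖lam 2 (rho u '' K)‖ = ‖lam 2 K‖ := norm_lam_isom _ _ hK
  have h3 : ‖(lam 2 K + lam 2 (rho u '' K)) / 2‖ ≤ ‖lam 2 K‖ := by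
    rw [norm_div, Complex.norm_two]
    have := norm_add_le (lam 2 K) (lam 2 (rho u '' K))
    linarith
  have h4 : ‖lam 2 (st u K)‖ ≤ ‖lam 2 (st u K) - (lam 2 K + lam 2 (rho u '' K)) / 2‖ +
      ‖(lam 2 K + lam 2 (rho u '' K)) / 2‖ := by
    have := norm_add_le (lam 2 (st u K) - (lam 2 K + lam 2 (rho u '' K)) / 2)
      ((lam 2 K + lam 2 (rho u '' K)) / 2)
    simpa using this
  linarith

/-- A body with a limit which is not an ellipsoid. -/
theorem not_ellipsoid {θ : ℕ → ℝ} {M : ℕ} (hM3 : 3 ≤ M)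
    (hs : Summable fun i => Real.sin (M * (θ (i + 1) - θ i)) ^ 2)
    (hne : ∀ i, Real.cos (M * (θ (i + 1) - θ i)) ≠ 0) :
    ∃ (R : ℝ) (K : ℕ → Set (EuclideanSpace ℝ (Fin 2))), Iter R (fun i => dir (θ i)) K ∧
      ∀ (ψ : ℕ → (EuclideanSpace ℝ (Fin 2) ≃ₗᵢ[ℝ] EuclideanSpace ℝ (Fin 2)))
        (L : Set (EuclideanSpace ℝ (Fin 2))), IsCompact L → L.Nonempty →
        Tendsto (fun i => hausdorffDist (ψ i '' K i) L) atTop (𝓝 0) →
        ¬ ∃ A : AffineEquiv ℝ (EuclideanSpace ℝ (Fin 2)) (EuclideanSpace ℝ (Fin 2)),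
          L = A '' closedBall 0 1 := by
  -- the angles of symmetry
  set φ : ℕ → ℝ := fun i => θ (i - 1) with hφd
  have hφ0 : φ 0 = θ 0 := rfl
  have hφs : ∀ i, φ (i + 1) = θ i := fun i => rfl
  set c : ℕ → ℝ := fun i => Real.cos (M * (φ (i + 1) - φ i)) with hcd
  have hc1 : ∀ i, |c i| ≤ 1 := fun i => Real.abs_cos_le_one _
  have hcne : ∀ i, c i ≠ 0 := by
    intro i
    cases i with
    | zero =>
      have : φ (0 + 1) = φ 0 := rfl
      simp only [hcd]
      rw [this]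
      simp
    | succ i => exact hne i
  have hcs : Summable fun i => 1 - c i ^ 2 := by
    rw [← summable_nat_add_iff 1]
    refine hs.congr fun i => ?_
    have := Real.sin_sq_add_cos_sq ((M : ℝ) * (θ (i + 1) - θ i))
    have h2 : c (i + 1) = Real.cos (M * (θ (i + 1) - θ i)) := rfl
    rw [h2]
    linarith
  obtain ⟨P, hP, hprod⟩ := exists_prod_ge_all hc1 hcne hcs
  obtain ⟨C, hC0, hC⟩ := lam_step M 2
  obtain ⟨C₂, hC₂0, hC₂⟩ := lam_two_st (R := 2)
  obtain ⟨C₅, hC₅0, hC₅⟩ := ellipse_bound hM3 2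
  obtain ⟨ε₀, hε₀, hbump⟩ := exists_bump hM3 (θ 0)
  set Q : ℝ := C + C₅ * C₂ + 1 with hQ
  have hQ0 : 0 < Q := by positivity
  have hC4 : (0 : ℝ) < P / (4 * Q) := by positivity
  obtain ⟨B, hBc, hBv, hBi, hB2, hBsym, hB1, hB20, hBlam, hBin⟩ :=
    hbump (min (ε₀ / 2) (P / (4 * Q))) (lt_min (by linarith) hC4)
      ((min_le_left _ _).trans_lt (by linarith))
  set ε : ℝ := min (ε₀ / 2) (P / (4 * Q)) with hεd
  have hεQ : Q * ε ≤ P / 4 := by
    calc Q * ε ≤ Q * (P / (4 * Q)) := mul_le_mul_of_nonneg_left (min_le_right _ _) hQ0.le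
      _ = P / 4 := by field_simp
  have hε0 : 0 ≤ ε := (lt_min (by linarith) hC4).le
  have hBvol : volume B ≠ 0 :=
    ((isOpen_interior.measure_pos volume hBi).trans_le (measure_mono interior_subset)).ne'
  have hIt : Iter 2 (fun i => dir (θ i)) (seqSt (fun i => dir (θ i)) B) :=
    iter_seqSt (fun i => norm_dir _) hBc hBv hB2 hBvol
  set K : ℕ → Set (EuclideanSpace ℝ (Fin 2)) := seqSt (fun i => dir (θ i)) B with hKd
  have hK0 : K 0 = B := rfl
  refine ⟨2, K, hIt, ?_⟩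
  have hsym : ∀ i, rho (dir (φ i)) '' K i = K i := by
    intro i
    cases i with
    | zero => exact hBsym
    | succ i =>
      rw [hIt.step i, hφs]
      exact rho_st (norm_dir _) (K i)
  have hstep : ∀ i, |c i| * ‖lam M (K i)‖ - C * Dlt (dir (θ i)) (K i) ≤ ‖lam M (K (i + 1))‖ := by
    intro i
    have h1 := hC (φ i) (φ (i + 1)) (K i) (hsym i) (hIt.cvx i) (hIt.cpt i) (hIt.sub i)
    rw [hIt.step i]
    exact h1
  set x0 : ℝ := ‖lam M (K 0)‖ with hx0
  have hx0pos : 0 < x0 := norm_pos_iff.2 hBlam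
  have hD : ∀ N, ∑ i ∈ Finset.range N, Dlt (dir (θ i)) (K i) ≤ ε * x0 := by
    intro N
    have h2 : ∑ i ∈ Finset.range N, Dlt (dir (θ i)) (K i) = inertia (K 0) - inertia (K N) := by
      rw [Finset.sum_congr rfl fun i _ => hIt.dlt i, Finset.sum_range_sub']
    obtain ⟨r, hr, hrv⟩ := exists_radius (hIt.cpt 0)
    have h3 : inertia (closedBall (0 : EuclideanSpace ℝ (Fin 2)) r) ≤ inertia (K N) :=
      inertia_ball_le (hIt.cpt N) hr (by rw [hrv, hIt.vol N])
    have h4 : inertia (K 0) - inertia (closedBall (0 : EuclideanSpace ℝ (Fin 2)) r) ≤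
        ε * x0 := hBin r hr hrv
    rw [h2]
    linarith
  have hlow : ∀ N, P * x0 - C * (ε * x0) ≤ ‖lam M (K N)‖ := by
    intro N
    have h1 := perturbed_ge (a := fun i => ‖lam M (K i)‖) (c := c)
      (e := fun i => C * Dlt (dir (θ i)) (K i)) hc1
      (fun i => mul_nonneg hC0 (hIt.dlt_nonneg i)) hstep 0 N
    simp only [zero_add] at h1
    rw [← Finset.mul_sum] at h1
    have h2 : P * x0 ≤ (∏ i ∈ Finset.range N, |c i|) * x0 :=
      mul_le_mul_of_nonneg_right (hprod N) hx0pos.le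
    have h3 := mul_le_mul_of_nonneg_left (hD N) hC0
    linarith
  have h2up : ∀ N, ‖lam 2 (K N)‖ ≤ C₂ * (ε * x0) := by
    intro N
    have h1 : ‖lam 2 (K N)‖ ≤ C₂ * ∑ i ∈ Finset.range N, Dlt (dir (θ i)) (K i) := by
      induction N with
      | zero => simp [hK0, hB20]
      | succ N ih =>
        rw [Finset.sum_range_succ, mul_add, hIt.step N]
        have := hC₂ (dir (θ N)) (K N) (norm_dir _) (hIt.cvx N) (hIt.cpt N) (hIt.sub N)
        linarith
    exact h1.trans (mul_le_mul_of_nonneg_left (hD N) hC₂0)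
  have h1z : ∀ N, lam 1 (K N) = 0 := by
    intro N
    induction N with
    | zero => exact hB1
    | succ N ih =>
      rw [hIt.step N]
      exact lam_one_st (norm_dir _) (hIt.cvx N) (hIt.cpt N) (hIt.sub N) ih
  rintro ψ L hL hLn hlim ⟨A, rfl⟩
  obtain ⟨hLc, -⟩ := hIt.limit_body hL hLn hlim
  have c1 : ∀ i, IsCompact (ψ i '' K i) :=
    fun i => (hIt.cpt _).image (LinearIsometryEquiv.continuous _)
  have c2 : ∀ i, Convex ℝ (ψ i '' K i) :=
    fun i => (hIt.cvx _).linear_image (ψ i).toLinearEquiv.toLinearMap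
  have c3 : ∀ i, (ψ i '' K i).Nonempty := fun i => (hIt.ne _).image _
  have c4 : ∀ i, ψ i '' K i ⊆ closedBall 0 2 := fun i => image_subset_ball (hIt.sub _) _
  have hLR : A '' closedBall 0 1 ⊆ closedBall 0 2 := by
    intro x hx
    obtain ⟨y, hy, hyx⟩ := hd_exists c3 hLn (fun i => (c1 i).isBounded) hL.isBounded hlim hx
    exact isClosed_closedBall.mem_of_tendsto hyx (Eventually.of_forall fun i => c4 i (hy i))
  have hlamt : ∀ m : ℕ, Tendsto (fun i => ‖lam m (K i)‖) atTop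
      (𝓝 ‖lam m (A '' closedBall 0 1)‖) := by
    intro m
    have h1 := (tendsto_lam c3 hLn c1 hL c2 hLc c4 hlim m).norm
    refine h1.congr fun i => ?_
    exact norm_lam_isom _ _ (hIt.cpt i)
  have e1 : lam 1 (A '' closedBall 0 1) = 0 := by
    have h1 := hlamt 1
    simp only [h1z, norm_zero] at h1
    exact norm_eq_zero.1 (tendsto_nhds_unique tendsto_const_nhds h1).symm
  have e2 : ‖lam 2 (A '' closedBall 0 1)‖ ≤ C₂ * (ε * x0) := le_of_tendsto' (hlamt 2) h2up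
  have e3 : P * x0 - C * (ε * x0) ≤ ‖lam M (A '' closedBall 0 1)‖ := ge_of_tendsto' (hlamt M) hlow
  have e4 := hC₅ A hLR e1
  have e5 : C₅ * ‖lam 2 (A '' closedBall 0 1)‖ ≤ C₅ * (C₂ * (ε * x0)) :=
    mul_le_mul_of_nonneg_left e2 hC₅0
  have e6 : Q * ε * x0 ≤ P / 4 * x0 := mul_le_mul_of_nonneg_right hεQ hx0pos.le
  have e7 : P * x0 ≤ (C + C₅ * C₂) * ε * x0 := by
    have : (C + C₅ * C₂) * ε * x0 = C * (ε * x0) + C₅ * (C₂ * (ε * x0)) := by ring
    linarith
  have e8 : (C + C₅ * C₂) * ε * x0 ≤ Q * ε * x0 := by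
    have : Q * ε * x0 = (C + C₅ * C₂) * ε * x0 + ε * x0 := by rw [hQ]; ring
    have h9 : 0 ≤ ε * x0 := mul_nonneg hε0 hx0pos.le
    linarith
  have e9 : 0 < P * x0 := mul_pos hP hx0pos
  linarith

end MP_02d86d_gt
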