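import Pool.Agent.Work.MP_02d86d_gt.B.Mono
import Pool.Agent.Work.MP_02d86d_gt.Plane.Sym
import Pool.Agent.Work.MP_02d86d_gt.Plane.Inertia
import Pool.Agent.Work.MP_02d86d_gt.Plane.Cont
import Pool.Agent.Work.MP_02d86d_gt.Plane.Bump
import Pool.Agent.Work.MP_02d86d_gt.Plane.Lam

/-! If one of the sums of `sin (m δ_i)^2` converges, some iterated symmetrals do not converge
to a disc. -/

set_option autoImplicit false

namespace MP_02d86d_gt

open MeasureTheory Set Filter Topology Metric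

/-- A small tail of a summable series. -/
theorem exists_tail_sum_le {f : ℕ → ℝ} (hf : Summable f) (h0 : ∀ i, 0 ≤ f i) {b : ℝ}
    (hb : 0 < b) : ∃ j : ℕ, ∀ N : ℕ, ∑ i ∈ Finset.range N, f (j + i) ≤ b := by
  have h1 := tendsto_sum_nat_add f
  have h2 : ∀ᶠ j in atTop, ∑' k, f (k + j) < b := h1.eventually (gt_mem_nhds hb)
  obtain ⟨j, hj⟩ := h2.exists
  refine ⟨j, fun N => ?_⟩
  have h3 : Summable fun k => f (k + j) := (summable_nat_add_iff j).2 hf
  have h4 := h3.sum_le_tsum (Finset.range N) fun i _ => h0 (i + j)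
  calc ∑ i ∈ Finset.range N, f (j + i) = ∑ i ∈ Finset.range N, f (i + j) :=
        Finset.sum_congr rfl fun i _ => by rw [add_comm]
    _ ≤ ∑' k, f (k + j) := h4
    _ ≤ b := hj.le

theorem backward {θ : ℕ → ℝ} {m : ℕ} (hm : 1 ≤ m)
    (hs : Summable fun i => Real.sin (m * (θ (i + 1) - θ i)) ^ 2) :
    ∃ (j : ℕ) (R : ℝ) (K : ℕ → Set (EuclideanSpace ℝ (Fin 2))),
      Iter R (fun i => dir (θ (j + i))) K ∧
      ∀ r : ℝ, 0 < r → ¬ Tendsto (fun i => hausdorffDist (K i) (closedBall 0 r)) atTop (𝓝 0) := by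
  set M : ℕ := 3 * m with hMd
  have hM3 : 3 ≤ M := by omega
  have hM0 : M ≠ 0 := by omega
  have hsM : Summable fun i => Real.sin (M * (θ (i + 1) - θ i)) ^ 2 := by
    have h1 := summable_sin_mul (x := fun i => θ (i + 1) - θ i) hs 3
    refine h1.congr fun i => ?_
    rw [hMd]
    push_cast
    rfl
  obtain ⟨j, hj⟩ := exists_tail_sum_le hsM (fun i => sq_nonneg _) (b := 1 / 2) (by norm_num)
  obtain ⟨C, hC0, hC⟩ := lam_step M 2
  obtain ⟨ε₀, hε₀, hbump⟩ := exists_bump hM3 (θ j)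
  have hC4 : (0 : ℝ) < 1 / (4 * (C + 1)) := by positivity
  obtain ⟨B, hBc, hBv, hBi, hB2, hBsym, -, -, hBlam, hBin⟩ :=
    hbump (min (ε₀ / 2) (1 / (4 * (C + 1)))) (lt_min (by linarith) hC4)
      ((min_le_left _ _).trans_lt (by linarith))
  set ε : ℝ := min (ε₀ / 2) (1 / (4 * (C + 1))) with hεd
  have hCε : C * ε ≤ 1 / 4 := by
    have h1 : ε ≤ 1 / (4 * (C + 1)) := min_le_right _ _
    calc C * ε ≤ C * (1 / (4 * (C + 1))) := mul_le_mul_of_nonneg_left h1 hC0
      _ = C / (4 * (C + 1)) := by ring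
      _ ≤ 1 / 4 := by
        rw [div_le_div_iff₀ (by positivity) (by norm_num)]
        linarith
  have hBvol : volume B ≠ 0 :=
    ((isOpen_interior.measure_pos volume hBi).trans_le (measure_mono interior_subset)).ne'
  have hIt : Iter 2 (fun i => dir (θ (j + i))) (seqSt (fun i => dir (θ (j + i))) B) :=
    iter_seqSt (fun i => norm_dir _) hBc hBv hB2 hBvol
  set K : ℕ → Set (EuclideanSpace ℝ (Fin 2)) := seqSt (fun i => dir (θ (j + i))) B with hKd
  have hK0 : K 0 = B := rfl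
  refine ⟨j, 2, K, hIt, ?_⟩
  -- the angles of symmetry
  set φ : ℕ → ℝ := fun i => θ (j + (i - 1)) with hφd
  have hφ0 : φ 0 = θ j := rfl
  have hφs : ∀ i, φ (i + 1) = θ (j + i) := fun i => rfl
  have hsym : ∀ i, rho (dir (φ i)) '' K i = K i := by
    intro i
    cases i with
    | zero => exact hBsym
    | succ i =>
      rw [hIt.step i, hφs]
      exact rho_st (norm_dir _) (K i)
  have hstep : ∀ i, |Real.cos (M * (φ (i + 1) - φ i))| * ‖lam M (K i)‖ -
      C * Dlt (dir (θ (j + i))) (K i) ≤ ‖lam M (K (i + 1))‖ := by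
    intro i
    have h1 := hC (φ i) (φ (i + 1)) (K i) (hsym i) (hIt.cvx i) (hIt.cpt i) (hIt.sub i)
    rw [hIt.step i]
    exact h1
  have hsum : ∀ N, ∑ i ∈ Finset.range N,
      (1 - |Real.cos (M * (φ (i + 1) - φ i))| ^ 2) ≤ 1 / 2 := by
    intro N
    have h1 : ∀ i, 1 - |Real.cos (M * (φ (i + 1) - φ i))| ^ 2 =
        Real.sin (M * (φ (i + 1) - φ i)) ^ 2 := by
      intro i
      rw [sq_abs]
      linarith [Real.sin_sq_add_cos_sq ((M : ℝ) * (φ (i + 1) - φ i))]
    simp only [h1]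
    cases N with
    | zero => simp
    | succ N =>
      rw [Finset.sum_range_succ']
      have h2 : Real.sin (M * (φ (0 + 1) - φ 0)) ^ 2 = 0 := by
        have : φ (0 + 1) = φ 0 := rfl
        rw [this]
        simp
      rw [h2, add_zero]
      exact hj N
  have hlow : ∀ N, ‖lam M (K 0)‖ / 4 ≤ ‖lam M (K N)‖ := by
    intro N
    have h1 := real_lemma2 (x := fun i => ‖lam M (K i)‖)
      (c := fun i => |Real.cos (M * (φ (i + 1) - φ i))|)
      (d := fun i => C * Dlt (dir (θ (j + i))) (K i)) (norm_nonneg _) (fun i => abs_nonneg _)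
      (fun i => Real.abs_cos_le_one _) (fun i => mul_nonneg hC0 (hIt.dlt_nonneg i)) hsum hstep N
    have h2 : ∑ i ∈ Finset.range N, C * Dlt (dir (θ (j + i))) (K i) =
        C * (inertia (K 0) - inertia (K N)) := by
      rw [← Finset.mul_sum, Finset.sum_congr rfl fun i _ => hIt.dlt i, Finset.sum_range_sub']
    obtain ⟨r, hr, hrv⟩ := exists_radius (hIt.cpt 0)
    have h3 : inertia (closedBall (0 : EuclideanSpace ℝ (Fin 2)) r) ≤ inertia (K N) :=
      inertia_ball_le (hIt.cpt N) hr (by rw [hrv, hIt.vol N])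
    have h4 : inertia (K 0) - inertia (closedBall (0 : EuclideanSpace ℝ (Fin 2)) r) ≤
        ε * ‖lam M (K 0)‖ := hBin r hr hrv
    have h5 : C * (inertia (K 0) - inertia (K N)) ≤ C * (ε * ‖lam M (K 0)‖) :=
      mul_le_mul_of_nonneg_left (by linarith) hC0
    have h6 : C * (ε * ‖lam M (K 0)‖) ≤ 1 / 4 * ‖lam M (K 0)‖ := by
      rw [← mul_assoc]
      exact mul_le_mul_of_nonneg_right hCε (norm_nonneg _)
    rw [h2] at h1
    linarith
  intro r hr hlim
  have h1 := tendsto_lam (L := closedBall 0 r) (fun i => hIt.ne i)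
    (nonempty_closedBall.2 hr.le) (fun i => hIt.cpt i) (isCompact_closedBall _ _)
    (fun i => hIt.cvx i) (convex_closedBall _ _) (fun i => hIt.sub i) hlim M
  rw [lam_ball hM0] at h1
  have h2 : Tendsto (fun i => ‖lam M (K i)‖) atTop (𝓝 0) := by
    simpa using h1.norm
  have h3 : ‖lam M (K 0)‖ / 4 ≤ 0 := ge_of_tendsto' h2 hlow
  have h4 : 0 < ‖lam M (K 0)‖ := norm_pos_iff.2 hBlam
  linarith

end MP_02d86d_gt
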