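import Pool.Agent.Work.MP_02d86d_gt.Gen
import Pool.Agent.Work.MP_02d86d_gt.Plane.Defs2

/-! The second order estimate for the complex moments. -/

set_option autoImplicit false

namespace MP_02d86d_gt

open MeasureTheory Set Filter Topology Metric

variable {n : ℕ}

/-- The second order estimate for a test function with bounded second differences. -/
theorem est2_gen {u : EuclideanSpace ℝ (Fin n)} (hu : ‖u‖ = 1)
    {K : Set (EuclideanSpace ℝ (Fin n))} (hch : Chords u K) (hK : IsCompact K)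
    (hS : IsCompact (st u K)) {R C : ℝ} (hR : K ⊆ closedBall 0 R)
    (hSR : st u K ⊆ closedBall 0 R) {g : EuclideanSpace ℝ (Fin n) → ℂ} (hg : Continuous g)
    (hC0 : 0 ≤ C) (hC : ∀ x v : EuclideanSpace ℝ (Fin n), ‖x + v‖ ≤ R → ‖x - v‖ ≤ R →
      ‖g (x + v) + g (x - v) - 2 * g x‖ ≤ C * ‖v‖ ^ 2) :
    ‖(∫ x in st u K, g x) - ((∫ x in K, g x) + ∫ x in rho u '' K, g x) / 2‖ ≤
      C / 2 * Dlt u K := by
  have hRK : IsCompact (rho u '' K) := hK.image (rho u).continuous
  have i1 := integrable_ci hu hK.measurableSet (hg.continuousOn.integrableOn_compact hK)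
  have i2 := integrable_ci hu hS.measurableSet (hg.continuousOn.integrableOn_compact hS)
  have i3 := integrable_ci hu hRK.measurableSet (hg.continuousOn.integrableOn_compact hRK)
  have i4 := dlt_eq hu hch hK hS
  have i5 : Integrable (fun a => (ci u K g a + ci u (rho u '' K) g a) / 2) :=
    (i1.1.add i3.1).div_const 2
  rw [← i1.2, ← i2.2, ← i3.2, ← integral_add i1.1 i3.1, ← integral_div, ← integral_sub i2.1 i5,
    ← i4.2, ← integral_const_mul]
  refine norm_integral_le_of_norm_le (i4.1.const_mul _) (Eventually.of_forall fun t => ?_)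
  unfold ci
  rcases hch t with ⟨h1, h3, h4⟩ | ⟨a, b, hab, h1, h3, h4⟩
  · simp [h1, h3, h4]
  · have hcont : Continuous fun y : ℝ => g (pt u t y) := by
      have : Continuous fun y : ℝ => pt u t y := by unfold pt; fun_prop
      exact hg.comp this
    have hcont1 : Continuous fun y : ℝ => g (pt u t (y + (a + b) / 2)) :=
      hcont.comp (by fun_prop)
    have hcont2 : Continuous fun y : ℝ => g (pt u t (y - (a + b) / 2)) :=
      hcont.comp (by fun_prop)
    have e1 : ∫ y in Icc (-b) (-a), g (pt u t y) =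
        ∫ y in Icc (-((b - a) / 2)) ((b - a) / 2), g (pt u t (y - (a + b) / 2)) := by
      rw [chord_shift (fun y => g (pt u t y)) (by linarith : -b ≤ -a)]
      have e2 : (-a - -b) / 2 = (b - a) / 2 := by ring
      rw [e2]
      refine integral_congr_ae (Eventually.of_forall fun y => ?_)
      simp only
      congr 2
      ring
    have e0 := chord_shift (fun y => g (pt u t y)) hab
    simp only [norm_pt hu, h1, h3, h4]
    rw [sq_chord _ _ _ hab, e1, e0]
    have c0 := hcont.continuousOn.integrableOn_compact (μ := volume)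
      (isCompact_Icc (a := -((b - a) / 2)) (b := (b - a) / 2))
    have c1 := hcont1.continuousOn.integrableOn_compact (μ := volume)
      (isCompact_Icc (a := -((b - a) / 2)) (b := (b - a) / 2))
    have c2 := hcont2.continuousOn.integrableOn_compact (μ := volume)
      (isCompact_Icc (a := -((b - a) / 2)) (b := (b - a) / 2))
    have c3 : IntegrableOn (fun y => (g (pt u t (y + (a + b) / 2)) +
        g (pt u t (y - (a + b) / 2))) / 2) (Icc (-((b - a) / 2)) ((b - a) / 2)) :=
      (c1.add c2).div_const 2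
    rw [← integral_add c1 c2, ← integral_div, ← integral_sub c0 c3]
    have hb := norm_setIntegral_le_of_norm_le_const (μ := volume)
      (s := Icc (-((b - a) / 2)) ((b - a) / 2))
      (f := fun y : ℝ => g (pt u t y) - (g (pt u t (y + (a + b) / 2)) +
        g (pt u t (y - (a + b) / 2))) / 2) (C := C / 2 * ((a + b) / 2) ^ 2) (by simp) ?_
    · refine hb.trans (le_of_eq ?_)
      rw [Measure.real, Real.volume_Icc, ENNReal.toReal_ofReal (by linarith)]
      ring
    · intro y hy
      rw [mem_Icc] at hy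
      have p1 : pt u t (y + (a + b) / 2) ∈ K := by
        have : y + (a + b) / 2 ∈ chord u K t := by
          rw [h1, mem_Icc]
          constructor <;> linarith [hy.1, hy.2]
        exact this
      have p2 : pt u t (-(y - (a + b) / 2)) ∈ K := by
        have : -(y - (a + b) / 2) ∈ chord u K t := by
          rw [h1, mem_Icc]
          constructor <;> linarith [hy.1, hy.2]
        exact this
      have q1 := mem_closedBall_zero_iff.1 (hR p1)
      have q2 := mem_closedBall_zero_iff.1 (hR p2)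
      rw [← rho_pt hu, LinearIsometryEquiv.norm_map] at q2
      have s1 : pt u t y + ((a + b) / 2) • u = pt u t (y + (a + b) / 2) := by
        unfold pt
        rw [add_smul, add_assoc]
      have s2 : pt u t y - ((a + b) / 2) • u = pt u t (y - (a + b) / 2) := by
        unfold pt
        rw [sub_smul, add_sub_assoc]
      have hh := hC (pt u t y) (((a + b) / 2) • u) (by rw [s1]; exact q1)
        (by rw [s2]; exact q2)
      rw [s1, s2, norm_smul, hu, mul_one, Real.norm_eq_abs, sq_abs] at hh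
      have e3 : g (pt u t y) - (g (pt u t (y + (a + b) / 2)) +
          g (pt u t (y - (a + b) / 2))) / 2 = -((g (pt u t (y + (a + b) / 2)) +
          g (pt u t (y - (a + b) / 2)) - 2 * g (pt u t y)) / 2) := by ring
      rw [e3, norm_neg, norm_div, Complex.norm_ofNat]
      linarith

/-- The first and second symmetric differences of a power. -/
theorem pow_diff (M : ℕ) (R : ℝ) : ∃ C1 C2 : ℝ, 0 ≤ C1 ∧ 0 ≤ C2 ∧ ∀ z w : ℂ, ‖z + w‖ ≤ R →
    ‖z - w‖ ≤ R → ‖(z + w) ^ M - (z - w) ^ M‖ ≤ C1 * ‖w‖ ∧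
      ‖(z + w) ^ M + (z - w) ^ M - 2 * z ^ M‖ ≤ C2 * ‖w‖ ^ 2 := by
  induction M with
  | zero =>
    refine ⟨0, 0, le_refl _, le_refl _, fun z w _ _ => ⟨by simp, ?_⟩⟩
    have e : (z + w) ^ 0 + (z - w) ^ 0 - 2 * z ^ 0 = 0 := by
      simp only [pow_zero]
      ring
    rw [e, norm_zero]
    simp
  | succ M ih =>
    obtain ⟨C1, C2, h1, h2, h⟩ := ih
    refine ⟨|R| * C1 + 2 * |R| ^ M, |R| * C2 + C1, by positivity, by positivity,
      fun z w hz hw => ?_⟩
    obtain ⟨k1, k2⟩ := h z w hz hw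
    have hz' : ‖z + w‖ ≤ |R| := hz.trans (le_abs_self R)
    have hw' : ‖z - w‖ ≤ |R| := hw.trans (le_abs_self R)
    have hn : ‖z‖ ≤ |R| := by
      have e : z = ((z + w) + (z - w)) / 2 := by ring
      rw [e, norm_div, Complex.norm_ofNat]
      have := norm_add_le (z + w) (z - w)
      linarith
    have hw0 := norm_nonneg w
    constructor
    · have e : (z + w) ^ (M + 1) - (z - w) ^ (M + 1) =
          z * ((z + w) ^ M - (z - w) ^ M) + w * ((z + w) ^ M + (z - w) ^ M) := by ring
      rw [e]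
      have a1 : ‖z * ((z + w) ^ M - (z - w) ^ M)‖ ≤ |R| * (C1 * ‖w‖) := by
        rw [norm_mul]
        exact mul_le_mul hn k1 (norm_nonneg _) (abs_nonneg _)
      have a2 : ‖(z + w) ^ M + (z - w) ^ M‖ ≤ 2 * |R| ^ M := by
        refine (norm_add_le _ _).trans ?_
        rw [norm_pow, norm_pow]
        have b1 := pow_le_pow_left₀ (norm_nonneg _) hz' M
        have b2 := pow_le_pow_left₀ (norm_nonneg _) hw' M
        linarith
      have a3 : ‖w * ((z + w) ^ M + (z - w) ^ M)‖ ≤ ‖w‖ * (2 * |R| ^ M) := by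
        rw [norm_mul]
        exact mul_le_mul_of_nonneg_left a2 hw0
      have a4 := norm_add_le (z * ((z + w) ^ M - (z - w) ^ M)) (w * ((z + w) ^ M + (z - w) ^ M))
      have a5 : |R| * (C1 * ‖w‖) + ‖w‖ * (2 * |R| ^ M) = (|R| * C1 + 2 * |R| ^ M) * ‖w‖ := by
        ring
      linarith
    · have e : (z + w) ^ (M + 1) + (z - w) ^ (M + 1) - 2 * z ^ (M + 1) =
          z * ((z + w) ^ M + (z - w) ^ M - 2 * z ^ M) + w * ((z + w) ^ M - (z - w) ^ M) := by
        ring
      rw [e]
      have a1 : ‖z * ((z + w) ^ M + (z - w) ^ M - 2 * z ^ M)‖ ≤ |R| * (C2 * ‖w‖ ^ 2) := by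
        rw [norm_mul]
        exact mul_le_mul hn k2 (norm_nonneg _) (abs_nonneg _)
      have a3 : ‖w * ((z + w) ^ M - (z - w) ^ M)‖ ≤ ‖w‖ * (C1 * ‖w‖) := by
        rw [norm_mul]
        exact mul_le_mul_of_nonneg_left k1 hw0
      have a4 := norm_add_le (z * ((z + w) ^ M + (z - w) ^ M - 2 * z ^ M))
        (w * ((z + w) ^ M - (z - w) ^ M))
      have a5 : |R| * (C2 * ‖w‖ ^ 2) + ‖w‖ * (C1 * ‖w‖) = (|R| * C2 + C1) * ‖w‖ ^ 2 := by
        ring
      linarith

/-- The second symmetric difference of a power, with constant `0` for small exponents. -/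
theorem pow_diff2 (M : ℕ) (R : ℝ) : ∃ C : ℝ, 0 ≤ C ∧ (M ≤ 1 → C = 0) ∧ ∀ z w : ℂ,
    ‖z + w‖ ≤ R → ‖z - w‖ ≤ R → ‖(z + w) ^ M + (z - w) ^ M - 2 * z ^ M‖ ≤ C * ‖w‖ ^ 2 := by
  by_cases hM : M ≤ 1
  · refine ⟨0, le_refl _, fun _ => rfl, fun z w _ _ => ?_⟩
    have e : (z + w) ^ M + (z - w) ^ M - 2 * z ^ M = 0 := by
      rcases Nat.le_one_iff_eq_zero_or_eq_one.1 hM with rfl | rfl
      · simp only [pow_zero]
        ring
      · simp only [pow_one]
        ring
    rw [e, norm_zero, zero_mul]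
  · obtain ⟨C1, C2, -, h2, h⟩ := pow_diff M R
    exact ⟨C2, h2, fun h' => absurd h' hM, fun z w hz hw => (h z w hz hw).2⟩

private theorem zc_add (x y : EuclideanSpace ℝ (Fin 2)) : zc (x + y) = zc x + zc y := by
  apply Complex.ext <;> simp [zc]

private theorem zc_sub (x y : EuclideanSpace ℝ (Fin 2)) : zc (x - y) = zc x - zc y := by
  apply Complex.ext <;> simp [zc]

/-- The second order estimate for the complex moments. -/
theorem lam_est (M : ℕ) (R : ℝ) : ∃ C : ℝ, 0 ≤ C ∧ (M ≤ 1 → C = 0) ∧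
    ∀ (u : EuclideanSpace ℝ (Fin 2)) (K : Set (EuclideanSpace ℝ (Fin 2))), ‖u‖ = 1 →
      Chords u K → IsCompact K → IsCompact (st u K) → K ⊆ closedBall 0 R →
      st u K ⊆ closedBall 0 R →
      ‖lam M (st u K) - (lam M K + lam M (rho u '' K)) / 2‖ ≤ C * Dlt u K := by
  obtain ⟨C, hC0, hC1, hC⟩ := pow_diff2 M R
  refine ⟨C / 2, by positivity, fun h => by rw [hC1 h]; simp, fun u K hu hch hK hS hR hSR => ?_⟩
  refine est2_gen hu hch hK hS hR hSR (g := fun x => zc x ^ M) (continuous_zc.pow M) hC0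
    fun x v hx hv => ?_
  simp only [zc_add, zc_sub]
  rw [← norm_zc v]
  refine hC (zc x) (zc v) ?_ ?_
  · rw [← zc_add, norm_zc]
    exact hx
  · rw [← zc_sub, norm_zc]
    exact hv

end MP_02d86d_gt
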