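import Pool.Agent.Work.MP_02d86d_gt.Plane.Sym
import Pool.Agent.Work.MP_02d86d_gt.Plane.Modes

/-! Plane bodies without nonzero Fourier modes. -/

set_option autoImplicit false

namespace MP_02d86d_gt

open MeasureTheory Set Filter Topology Metric

/-- A plane convex body all of whose nonzero Fourier modes vanish is invariant under all
isometries. -/
theorem image_of_modes {K : Set (EuclideanSpace ℝ (Fin 2))} (hK : IsCompact K)
    (hc : Convex ℝ K) (hv : volume K ≠ 0) (h : ∀ (s : ℝ) (m : ℤ), m ≠ 0 → mode s m K = 0)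
    (ψ : EuclideanSpace ℝ (Fin 2) ≃ₗᵢ[ℝ] EuclideanSpace ℝ (Fin 2)) : ψ '' K = K :=
  image_of_radial hK hc hv (fun _ _ hn => Th_radial hK h hn) ψ

end MP_02d86d_gt
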